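import Mathlib

set_option autoImplicit false

/-!
A matrix which is approximated to high order by invertible matrices is invertible under all
evaluations into matrix rings over commutative domains.
-/

namespace Pool.Agent.H193R3

universe u v w

open Matrix Polynomial

lemma natDegree_det_le' {R : Type u} [CommRing R] {ν : Type v} [Fintype ν] [DecidableEq ν]
    (L : Matrix ν ν R[X]) (d : ℕ) (hd : ∀ a b, (L a b).natDegree ≤ d) :
    L.det.natDegree ≤ Fintype.card ν * d := by
  rw [Matrix.det_apply]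
  apply Polynomial.natDegree_sum_le_of_forall_le
  intro s _
  refine (Polynomial.natDegree_smul_le _ _).trans ?_
  refine (Polynomial.natDegree_prod_le _ _).trans ?_
  calc ∑ i, (L (s i) i).natDegree ≤ ∑ _i : ν, d := Finset.sum_le_sum (fun i _ => hd _ _)
    _ = Fintype.card ν * d := by simp

lemma isUnit_of_approx {R : Type u} [CommRing R] [IsDomain R] {ν : Type v} [Fintype ν]
    [DecidableEq ν] (L U V : Matrix ν ν R[X]) (d m : ℕ) (hd : ∀ a b, (L a b).natDegree ≤ d)
    (hm : Fintype.card ν * d < m) (hUV : U * V = 1 ∨ V * U = 1)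
    (hLU : ∀ a b, X ^ m ∣ L a b - U a b) : IsUnit L := by
  rw [Matrix.isUnit_iff_isUnit_det]
  have hU : IsUnit U.det := by
    apply IsUnit.of_mul_eq_one V.det
    rcases hUV with hUV | hUV
    · rw [← Matrix.det_mul, hUV, Matrix.det_one]
    · rw [mul_comm, ← Matrix.det_mul, hUV, Matrix.det_one]
  obtain ⟨u, hu, hu2⟩ := Polynomial.isUnit_iff.mp hU
  have hdvd : X ^ m ∣ L.det - U.det := by
    rw [← Ideal.mem_span_singleton, ← Ideal.Quotient.eq, RingHom.map_det, RingHom.map_det]
    congr 1
    ext a b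
    rw [RingHom.mapMatrix_apply, RingHom.mapMatrix_apply, Matrix.map_apply, Matrix.map_apply,
      Ideal.Quotient.eq, Ideal.mem_span_singleton]
    exact hLU a b
  have hdeg : (L.det - U.det).natDegree < m := by
    refine lt_of_le_of_lt (Polynomial.natDegree_sub_le _ _) ?_
    rw [← hu2, Polynomial.natDegree_C, Nat.max_zero]
    exact lt_of_le_of_lt (natDegree_det_le' L d hd) hm
  have hzero : L.det - U.det = 0 := by
    by_contra hne
    have := Polynomial.natDegree_le_of_dvd hdvd hne
    rw [Polynomial.natDegree_X_pow] at this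
    omega
  rw [sub_eq_zero.mp hzero]
  exact hU

/-- the scaled evaluation -/
noncomputable def thetaHom {B : Type v} [Ring B] (σ : B →+* B[X]) {κ : Type} [Fintype κ]
    [DecidableEq κ] {R : Type u} [CommRing R] (ev : B →+* Matrix κ κ R) :
    B →+* Matrix κ κ R[X] :=
  (matPolyEquiv (n := κ) (R := R)).symm.toRingEquiv.toRingHom.comp
    ((Polynomial.mapRingHom ev).comp σ)

lemma thetaHom_coeff {B : Type v} [Ring B] (σ : B →+* B[X]) {κ : Type} [Fintype κ]
    [DecidableEq κ] {R : Type u} [CommRing R] (ev : B →+* Matrix κ κ R) (b : B) (c d : κ)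
    (k : ℕ) : (thetaHom σ ev b c d).coeff k = ev ((σ b).coeff k) c d := by
  show (matPolyEquiv.symm ((σ b).map ev) c d).coeff k = _
  rw [matPolyEquiv_symm_apply_coeff, Polynomial.coeff_map]

lemma thetaHom_eval {B : Type v} [Ring B] (σ : B →+* B[X]) (hσ : ∀ b, (σ b).eval 1 = b)
    {κ : Type} [Fintype κ] [DecidableEq κ] {R : Type u} [CommRing R] (ev : B →+* Matrix κ κ R)
    (b : B) : (Polynomial.evalRingHom (1 : R)).mapMatrix (thetaHom σ ev b) = ev b := by
  have h1 := matPolyEquiv_symm_map_eval ((σ b).map ev) (1 : R)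
  rw [map_one] at h1
  have h2 : ((σ b).map ev).eval 1 = ev b := by
    rw [Polynomial.eval_map, ← map_one ev, Polynomial.eval₂_at_apply, hσ]
  rw [h2] at h1
  exact h1

theorem closure_unit {B : Type v} [Ring B] (σ : B →+* B[X]) (hσ : ∀ b, (σ b).eval 1 = b)
    {ν κ : Type} [Fintype ν] [DecidableEq ν] [Fintype κ] [DecidableEq κ]
    {R : Type u} [CommRing R] [IsDomain R] (ev : B →+* Matrix κ κ R)
    (L U V : Matrix ν ν B) (d m : ℕ) (hd : ∀ a b k, d < k → (σ (L a b)).coeff k = 0)
    (hm : Fintype.card ν * Fintype.card κ * d < m) (hUV : U * V = 1 ∨ V * U = 1)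
    (hLU : ∀ a b k, k < m → (σ (L a b - U a b)).coeff k = 0) :
    IsUnit (ev.mapMatrix L) := by
  let F : Matrix ν ν B →+* Matrix (ν × κ) (ν × κ) R[X] :=
    (Matrix.compRingEquiv ν κ R[X]).toRingHom.comp (thetaHom σ ev).mapMatrix
  have hF : ∀ (M : Matrix ν ν B) (a b : ν) (c d : κ) (k : ℕ),
      (F M (a, c) (b, d)).coeff k = ev ((σ (M a b)).coeff k) c d := by
    intro M a b c d k
    exact thetaHom_coeff σ ev (M a b) c d k
  have h1 : IsUnit (F L) := by
    apply isUnit_of_approx (F L) (F U) (F V) d m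
    · rintro ⟨a, c⟩ ⟨b, e⟩
      rw [Polynomial.natDegree_le_iff_coeff_eq_zero]
      intro k hk
      rw [hF, hd a b k hk, map_zero]
      rfl
    · rw [Fintype.card_prod]; exact hm
    · rw [← map_mul, ← map_mul]
      exact hUV.imp (fun h => by rw [h, map_one]) (fun h => by rw [h, map_one])
    · rintro ⟨a, c⟩ ⟨b, e⟩
      rw [Polynomial.X_pow_dvd_iff]
      intro k hk
      have : F L (a, c) (b, e) - F U (a, c) (b, e) = F (L - U) (a, c) (b, e) := by
        rw [map_sub]; rfl
      rw [this, hF, Matrix.sub_apply, hLU a b k hk, map_zero]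
      rfl
  have h2 := (h1.map ((Matrix.compRingEquiv ν κ R[X]).symm.toRingHom)).map
    (((Polynomial.evalRingHom (1 : R)).mapMatrix (m := κ)).mapMatrix (m := ν))
  have h3 : ((Polynomial.evalRingHom (1 : R)).mapMatrix (m := κ)).mapMatrix (m := ν)
      ((Matrix.compRingEquiv ν κ R[X]).symm.toRingHom (F L)) = ev.mapMatrix L := by
    have h4 : (Matrix.compRingEquiv ν κ R[X]).symm.toRingHom (F L)
        = (thetaHom σ ev).mapMatrix L :=
      (Matrix.compRingEquiv ν κ R[X]).symm_apply_apply ((thetaHom σ ev).mapMatrix L)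
    rw [h4]
    refine Matrix.ext fun a b => ?_
    exact thetaHom_eval σ hσ ev (L a b)
  rw [h3] at h2
  exact h2

end Pool.Agent.H193R3
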