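import Pool.Agent.H193R3.Div
import Pool.Agent.H193R3.Closure

set_option autoImplicit false

/-!
Noncommutative differential calculus on the free algebra, with values in the enveloping algebra.
-/

namespace Pool.Agent.H193R3

universe u

open scoped TensorProduct
open MulOpposite

/-- the free algebra, as a monoid algebra -/
abbrev FA (K : Type u) [Field K] (n : ℕ) := MonoidAlgebra K (FreeMonoid (Fin n))

/-- the enveloping algebra -/
abbrev AA (K : Type u) [Field K] (n : ℕ) := FA K n ⊗[K] (FA K n)ᵐᵒᵖ

variable {K : Type u} [Field K] {n : ℕ}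

/-- the generators -/
noncomputable def gx (j : Fin n) : FA K n := MonoidAlgebra.single (FreeMonoid.of j) 1

/-- the monomials -/
noncomputable def mon (w : FreeMonoid (Fin n)) : FA K n := MonoidAlgebra.single w 1

lemma mon_mul (v w : FreeMonoid (Fin n)) : (mon (v * w) : FA K n) = mon v * mon w := by
  rw [mon, mon, mon, MonoidAlgebra.single_mul_single, one_mul]

lemma mon_of (j : Fin n) : (mon (FreeMonoid.of j) : FA K n) = gx j := rfl

lemma mon_one : (mon 1 : FA K n) = 1 := rfl

lemma single_eq (w : FreeMonoid (Fin n)) (c : K) :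
    (MonoidAlgebra.single w c : FA K n) = c • mon w := by
  rw [mon, MonoidAlgebra.smul_single, smul_eq_mul, mul_one]

lemma FA_induction {P : FA K n → Prop} (a : FA K n) (h0 : P 0)
    (hadd : ∀ x y, P x → P y → P (x + y)) (hmon : ∀ (w : FreeMonoid (Fin n)) (c : K),
      P (c • mon w)) : P a :=
  MonoidAlgebra.induction_linear a h0 hadd (fun w c => by rw [single_eq]; exact hmon w c)

/-- left factor -/
noncomputable def ll (K : Type u) [Field K] (n : ℕ) : FA K n →ₐ[K] AA K n := Algebra.TensorProduct.includeLeft

/-- right factor -/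
noncomputable def rr (K : Type u) [Field K] (n : ℕ) : FA K n →ₗ[K] AA K n :=
  (Algebra.TensorProduct.includeRight (R := K) (A := FA K n)
    (B := (FA K n)ᵐᵒᵖ)).toLinearMap ∘ₗ (MulOpposite.opLinearEquiv K).toLinearMap

lemma ll_apply (a : FA K n) : ll K n a = a ⊗ₜ[K] (1 : (FA K n)ᵐᵒᵖ) := rfl

lemma rr_apply (a : FA K n) : rr K n a = (1 : FA K n) ⊗ₜ[K] (op a) := rfl

lemma rr_one : rr K n (1 : FA K n) = 1 := rfl

lemma rr_mul (a b : FA K n) : rr K n (a * b) = rr K n b * rr K n a := by
  rw [rr_apply, rr_apply, rr_apply, Algebra.TensorProduct.tmul_mul_tmul, one_mul, op_mul]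

lemma ll_mul_rr (a b : FA K n) : ll K n a * rr K n b = a ⊗ₜ[K] (op b) := by
  rw [ll_apply, rr_apply, Algebra.TensorProduct.tmul_mul_tmul, one_mul, mul_one]

lemma rr_mul_ll (a b : FA K n) : rr K n b * ll K n a = a ⊗ₜ[K] (op b) := by
  rw [ll_apply, rr_apply, Algebra.TensorProduct.tmul_mul_tmul, one_mul, mul_one]

lemma ll_rr_comm (a b : FA K n) : ll K n a * rr K n b = rr K n b * ll K n a := by
  rw [ll_mul_rr, rr_mul_ll]

/-- induction on the enveloping algebra -/
lemma AA_induction {P : AA K n → Prop} (m : AA K n) (h0 : P 0)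
    (hadd : ∀ x y, P x → P y → P (x + y)) (hpure : ∀ a b : FA K n, P (ll K n a * rr K n b)) : P m := by
  induction m using TensorProduct.induction_on with
  | zero => exact h0
  | tmul a b =>
    have := hpure a (unop b)
    rwa [ll_mul_rr, op_unop] at this
  | add x y hx hy => exact hadd x y hx hy

/-- the derivative of a word -/
noncomputable def dword (j : Fin n) : List (Fin n) → AA K n
  | [] => 0
  | i :: w => (if i = j then rr K n (mon (FreeMonoid.ofList w)) else 0) + ll K n (gx i) * dword j w

/-- the noncommutative partial derivative -/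
noncomputable def dd (j : Fin n) : FA K n →ₗ[K] AA K n :=
  (MonoidAlgebra.basis (FreeMonoid (Fin n)) K).constr K (fun w => dword j w.toList)

lemma dd_mon (j : Fin n) (w : FreeMonoid (Fin n)) :
    dd j (mon w : FA K n) = dword j w.toList := by
  have := (MonoidAlgebra.basis (FreeMonoid (Fin n)) K).constr_basis K
    (fun w => (dword j w.toList : AA K n)) w
  rw [MonoidAlgebra.basis_apply] at this
  exact this

lemma dd_of_mul (j i : Fin n) (w : FreeMonoid (Fin n)) :
    dd j (mon (FreeMonoid.of i * w) : FA K n)
      = (if i = j then rr K n (mon w) else 0) + ll K n (gx i) * dd j (mon w) := by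
  rw [dd_mon, dd_mon]
  rfl

lemma dd_one (j : Fin n) : dd j (1 : FA K n) = 0 := by
  rw [← mon_one, dd_mon]
  rfl

lemma dd_gx (j i : Fin n) : dd j (gx i : FA K n) = if i = j then 1 else 0 := by
  have h := dd_of_mul (K := K) j i 1
  rw [mul_one, mon_of, mon_one, dd_one, mul_zero, add_zero, rr_one] at h
  exact h

lemma dd_mul (j : Fin n) (a b : FA K n) : dd j (a * b) = ll K n a * dd j b + rr K n b * dd j a := by
  induction a using FA_induction with
  | h0 => simp
  | hadd x y hx hy =>
    rw [add_mul, map_add, hx, hy, map_add, map_add, add_mul, mul_add]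
    abel
  | hmon v c =>
    rw [smul_mul_assoc, map_smul, map_smul, map_smul, smul_mul_assoc,
      mul_smul_comm, ← smul_add]
    congr 1
    induction b using FA_induction with
    | h0 => simp
    | hadd x y hx hy =>
      rw [mul_add, map_add, hx, hy, map_add, map_add, mul_add, add_mul]
      abel
    | hmon w c =>
      rw [mul_smul_comm, map_smul, map_smul, map_smul, mul_smul_comm,
        smul_mul_assoc, ← smul_add]
      congr 1
      rw [← mon_mul]
      induction v using FreeMonoid.inductionOn' with
      | one => rw [one_mul, mon_one, map_one, one_mul, dd_one, mul_zero, add_zero]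
      | of_mul i v ih =>
        rw [mul_assoc, dd_of_mul, ih, dd_of_mul, mon_mul, mon_mul, mon_of, map_mul (ll K n)]
        split_ifs with h
        · rw [rr_mul, mul_add, mul_add]
          rw [← mul_assoc (ll K n (gx i)) (rr K n (mon w)), ll_rr_comm (gx i) (mon w)]
          simp only [mul_assoc]
          abel
        · rw [zero_add, zero_add, mul_add]
          rw [← mul_assoc (ll K n (gx i)) (rr K n (mon w)), ll_rr_comm (gx i) (mon w)]
          simp only [mul_assoc]

/-- the universal derivation -/
noncomputable def delta : FA K n →ₗ[K] AA K n := (ll K n).toLinearMap - rr K n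

lemma delta_apply (a : FA K n) : delta a = ll K n a - rr K n a := rfl

lemma delta_mul (a b : FA K n) : delta (a * b) = ll K n a * delta b + rr K n b * delta a := by
  rw [delta_apply, delta_apply, delta_apply, map_mul, rr_mul, mul_sub, mul_sub, ll_rr_comm a b]
  abel

lemma delta_one : delta (1 : FA K n) = 0 := by
  rw [delta_apply, map_one, rr_one, sub_self]

lemma delta_expand (a : FA K n) : delta a = ∑ j, dd j a * delta (gx j) := by
  induction a using FA_induction with
  | h0 => simp
  | hadd x y hx hy =>
    rw [map_add, hx, hy, ← Finset.sum_add_distrib]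
    apply Finset.sum_congr rfl
    intro j _
    rw [map_add, add_mul]
  | hmon w c =>
    rw [map_smul]
    simp only [map_smul, smul_mul_assoc]
    rw [← Finset.smul_sum]
    congr 1
    induction w using FreeMonoid.inductionOn' with
    | one =>
      rw [mon_one, delta_one]
      simp [dd_one]
    | of_mul i w ih =>
      rw [mon_mul, mon_of, delta_mul, ih, Finset.mul_sum]
      simp only [dd_mul, add_mul]
      rw [Finset.sum_add_distrib]
      congr 1
      · apply Finset.sum_congr rfl
        intro j _
        rw [mul_assoc]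
      · rw [Finset.sum_eq_single i]
        · rw [dd_gx, if_pos rfl, mul_one]
        · intro j _ hj
          rw [dd_gx, if_neg (Ne.symm hj), mul_zero, zero_mul]
        · simp

/-- coefficient extraction -/
noncomputable def psi (k : Fin n) : AA K n →ₗ[K] AA K n :=
  TensorProduct.lift ((LinearMap.mul K (AA K n)).flip.compl₁₂ (dd k)
    (Algebra.TensorProduct.includeRight (R := K) (A := FA K n)
      (B := (FA K n)ᵐᵒᵖ)).toLinearMap)

lemma psi_pure (k : Fin n) (a b : FA K n) : psi k (ll K n a * rr K n b) = rr K n b * dd k a := by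
  rw [ll_mul_rr, psi, TensorProduct.lift.tmul]
  rfl

lemma psi_mul_delta (k j : Fin n) (m : AA K n) :
    psi k (m * delta (gx j)) = if j = k then m else 0 := by
  induction m using AA_induction with
  | h0 => simp
  | hadd x y hx hy =>
    rw [add_mul, map_add, hx, hy]
    split_ifs <;> simp
  | hpure a b =>
    have h1 : ll K n a * rr K n b * delta (gx j)
        = ll K n (a * gx j) * rr K n b - ll K n a * rr K n (gx j * b) := by
      rw [delta_apply, mul_sub, map_mul, rr_mul, mul_assoc (ll K n a) (rr K n b) (ll K n (gx j)),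
        ← ll_rr_comm (gx j) b, ← mul_assoc, ← mul_assoc]
    rw [h1, map_sub, psi_pure, psi_pure, dd_mul, dd_gx, rr_mul, mul_add]
    split_ifs with h
    · rw [mul_one, mul_assoc, add_sub_cancel_right, ll_rr_comm]
    · rw [mul_zero, mul_zero, zero_add, mul_assoc, sub_self]

lemma delta_indep (m : Fin n → AA K n) (h : ∑ j, m j * delta (gx j) = 0) (k : Fin n) :
    m k = 0 := by
  have h1 := congrArg (psi k) h
  rw [map_sum, map_zero] at h1
  simp only [psi_mul_delta] at h1
  simpa using h1

/-- induced map on the enveloping algebra -/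
noncomputable def til (α : FA K n →ₐ[K] FA K n) : AA K n →ₐ[K] AA K n :=
  Algebra.TensorProduct.map α (AlgHom.op α)

lemma til_ll (α : FA K n →ₐ[K] FA K n) (a : FA K n) : til α (ll K n a) = ll K n (α a) := by
  rw [til, ll_apply, Algebra.TensorProduct.map_tmul, map_one]
  rfl

lemma til_rr (α : FA K n →ₐ[K] FA K n) (a : FA K n) : til α (rr K n a) = rr K n (α a) := by
  rw [til, rr_apply, Algebra.TensorProduct.map_tmul, map_one]
  rfl

lemma til_delta (α : FA K n →ₐ[K] FA K n) (a : FA K n) : til α (delta a) = delta (α a) := by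
  rw [delta_apply, map_sub, til_ll, til_rr, delta_apply]

/-- the Jacobian matrix -/
noncomputable def Jac (α : FA K n →ₐ[K] FA K n) : Matrix (Fin n) (Fin n) (AA K n) :=
  Matrix.of fun i j => dd j (α (gx i))

lemma delta_Jac (α : FA K n →ₐ[K] FA K n) (i : Fin n) :
    delta (α (gx i)) = ∑ j, Jac α i j * delta (gx j) := delta_expand _

lemma Jac_left_inv (α : FA K n ≃ₐ[K] FA K n) :
    ∃ N : Matrix (Fin n) (Fin n) (AA K n), N * Jac (α : FA K n →ₐ[K] FA K n) = 1 := by
  refine ⟨Matrix.of fun i j => til (α : FA K n →ₐ[K] FA K n) (dd j (α.symm (gx i))), ?_⟩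
  refine Matrix.ext fun i k => ?_
  have h1 : delta (gx i : FA K n)
      = ∑ k, (∑ j, til (α : FA K n →ₐ[K] FA K n) (dd j (α.symm (gx i)))
        * Jac (α : FA K n →ₐ[K] FA K n) j k) * delta (gx k) := by
    have h2 : (gx i : FA K n) = (α : FA K n →ₐ[K] FA K n) (α.symm (gx i)) := by simp
    conv_lhs => rw [h2, ← til_delta, delta_expand, map_sum]
    simp only [map_mul, til_delta, delta_Jac, Finset.mul_sum, Finset.sum_mul]
    rw [Finset.sum_comm]
    apply Finset.sum_congr rfl
    intro k _
    apply Finset.sum_congr rfl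
    intro j _
    rw [mul_assoc]
  have h3 : ∑ k, ((Matrix.of fun i j => til (α : FA K n →ₐ[K] FA K n)
      (dd j (α.symm (gx i)))) * Jac (α : FA K n →ₐ[K] FA K n)
        - (1 : Matrix (Fin n) (Fin n) (AA K n))) i k * delta (gx k) = 0 := by
    simp only [Matrix.sub_apply, sub_mul, Finset.sum_sub_distrib, Matrix.mul_apply,
      Matrix.of_apply]
    rw [← h1]
    simp [Matrix.one_apply]
  have h4 := delta_indep _ h3 k
  rw [Matrix.sub_apply, sub_eq_zero] at h4
  exact h4

end Pool.Agent.H193R3
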