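import Pool.Agent.H193R3.Thm1

set_option autoImplicit false

/-!
The free algebra of finite rank embeds in a division ring: through the monoid algebra of the
monoid `t^a x^k`, `x t = t^r x`, which is a left Ore domain.
-/

namespace Pool.Agent.H193R3

universe u

open Matrix

/-- the monoid of monomials `t^a x^k` with `x t = t^r x` -/
@[ext] structure Gam (r : ℕ) where
  a : ℕ
  k : ℕ
deriving DecidableEq

namespace Gam

variable {r : ℕ}

instance : Mul (Gam r) := ⟨fun x y => ⟨x.a + r ^ x.k * y.a, x.k + y.k⟩⟩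
instance : One (Gam r) := ⟨⟨0, 0⟩⟩

lemma mul_a (x y : Gam r) : (x * y).a = x.a + r ^ x.k * y.a := rfl
lemma mul_k (x y : Gam r) : (x * y).k = x.k + y.k := rfl
lemma one_a : (1 : Gam r).a = 0 := rfl
lemma one_k : (1 : Gam r).k = 0 := rfl

instance : Monoid (Gam r) where
  mul_assoc x y z := by
    ext
    · simp only [mul_a, mul_k]; ring
    · simp only [mul_k]; ring
  one_mul x := by
    ext
    · simp [mul_a, one_a, one_k]
    · simp [mul_k, one_k]
  mul_one x := by
    ext
    · simp [mul_a, one_a]
    · simp [mul_k, one_k]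

instance : IsRightCancelMul (Gam r) where
  mul_right_cancel x y z h := by
    have h1 := congrArg Gam.k h
    have h2 := congrArg Gam.a h
    simp only [mul_a, mul_k] at h1 h2
    have h3 : y.k = z.k := by omega
    rw [h3] at h2
    ext
    · omega
    · exact h3

noncomputable instance : LinearOrder (Gam r) :=
  LinearOrder.lift' (fun x : Gam r => toLex (x.k, x.a)) (by
    intro x y h
    have h' := congrArg ofLex h
    simp only [ofLex_toLex, Prod.mk.injEq] at h'
    ext
    · exact h'.2
    · exact h'.1)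

lemma lt_iff (x y : Gam r) : x < y ↔ x.k < y.k ∨ (x.k = y.k ∧ x.a < y.a) := by
  show toLex (x.k, x.a) < toLex (y.k, y.a) ↔ _
  rw [Prod.Lex.toLex_lt_toLex]

end Gam

instance gamMono {r : ℕ} [NeZero r] : MulLeftStrictMono (Gam r) where
  elim x y z h := by
    show x * y < x * z
    have h : y < z := h
    rw [Gam.lt_iff] at h ⊢
    simp only [Gam.mul_a, Gam.mul_k]
    rcases h with h | ⟨h1, h2⟩
    · left; omega
    · right
      refine ⟨by omega, ?_⟩
      have : 0 < r ^ x.k := Nat.pos_of_ne_zero (pow_ne_zero _ (NeZero.ne r))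
      have := Nat.mul_lt_mul_of_pos_left h2 this
      omega

instance gamUnique {r : ℕ} [NeZero r] : TwoUniqueProds (Gam r) :=
  TwoUniqueProds.of_covariant_right

section ore

variable {K : Type u} [Field K] {r : ℕ}

/-- box of monomials -/
def box (r m M : ℕ) : Finset (Gam r) :=
  (Finset.range (m + 1) ×ˢ Finset.range (M + 1)).image (fun p => ⟨p.2, p.1⟩)

lemma mem_box {m M : ℕ} {g : Gam r} : g ∈ box r m M ↔ g.k ≤ m ∧ g.a ≤ M := by
  unfold box
  simp only [Finset.mem_image, Finset.mem_product, Finset.mem_range, Prod.exists]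
  constructor
  · rintro ⟨k, a, ⟨h1, h2⟩, rfl⟩
    exact ⟨by simpa using Nat.lt_succ_iff.mp h1, by simpa using Nat.lt_succ_iff.mp h2⟩
  · rintro ⟨h1, h2⟩
    exact ⟨g.k, g.a, ⟨by omega, by omega⟩, rfl⟩

lemma card_box (m M : ℕ) : (box r m M).card = (m + 1) * (M + 1) := by
  unfold box
  rw [Finset.card_image_of_injective, Finset.card_product, Finset.card_range, Finset.card_range]
  rintro ⟨a, b⟩ ⟨c, d⟩ h
  simp only [Gam.mk.injEq] at h
  ext
  · exact h.2
  · exact h.1

lemma mul_mem_box [NeZero r] {m M d e : ℕ} {x y : Gam r} (hx : x ∈ box r m M)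
    (hy : y ∈ box r d e) : x * y ∈ box r (m + d) (M + r ^ m * e) := by
  rw [mem_box] at hx hy ⊢
  rw [Gam.mul_k, Gam.mul_a]
  refine ⟨by omega, ?_⟩
  have h1 : r ^ x.k ≤ r ^ m := Nat.pow_le_pow_right (Nat.pos_of_ne_zero (NeZero.ne r)) hx.1
  have h2 : r ^ x.k * y.a ≤ r ^ m * e := Nat.mul_le_mul h1 hy.2
  omega

lemma support_mul_box [NeZero r] {m M d e : ℕ} {p q : MonoidAlgebra K (Gam r)}
    (hp : ∀ g, g ∉ box r m M → p.coeff g = 0) (hq : ∀ g, g ∉ box r d e → q.coeff g = 0) :
    ∀ g, g ∉ box r (m + d) (M + r ^ m * e) → (p * q).coeff g = 0 := by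
  classical
  intro g hg
  rw [MonoidAlgebra.coeff_mul, Finsupp.sum]
  apply Finset.sum_eq_zero
  intro x hx
  rw [Finsupp.sum]
  apply Finset.sum_eq_zero
  intro y hy
  rw [if_neg]
  rintro rfl
  apply hg
  apply mul_mem_box
  · by_contra h
    exact (Finsupp.mem_support_iff.mp hx) (hp x h)
  · by_contra h
    exact (Finsupp.mem_support_iff.mp hy) (hq y h)

lemma exists_box (f : MonoidAlgebra K (Gam r)) :
    ∃ d, ∀ g, g ∉ box r d d → f.coeff g = 0 := by
  classical
  refine ⟨f.coeff.support.sup (fun g => max g.k g.a), fun g hg => ?_⟩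
  by_contra h
  apply hg
  rw [mem_box]
  have : max g.k g.a ≤ f.coeff.support.sup (fun g => max g.k g.a) :=
    Finset.le_sup (f := fun g : Gam r => max g.k g.a) (Finsupp.mem_support_iff.mpr h)
  exact ⟨le_trans (le_max_left _ _) this, le_trans (le_max_right _ _) this⟩

/-- element with given coefficients on a box -/
noncomputable def ofBox (m M : ℕ) : (box r m M → K) →ₗ[K] MonoidAlgebra K (Gam r) where
  toFun c := ∑ g, MonoidAlgebra.single g.1 (c g)
  map_add' c c' := by
    simp [Finset.sum_add_distrib]
  map_smul' t c := by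
    simp [Finset.smul_sum]

lemma ofBox_coeff_of_mem (m M : ℕ) (c : box r m M → K) (g : Gam r) (hg : g ∈ box r m M) :
    (ofBox m M c).coeff g = c ⟨g, hg⟩ := by
  show (∑ g : box r m M, MonoidAlgebra.single g.1 (c g)).coeff g = _
  rw [MonoidAlgebra.coeff_sum, Finsupp.finsetSum_apply, Finset.sum_eq_single ⟨g, hg⟩]
  · simp
  · intro b _ hb
    rw [MonoidAlgebra.coeff_single, Finsupp.single_eq_of_ne]
    intro h
    apply hb
    exact Subtype.ext h.symm
  · simp

lemma ofBox_coeff_of_notMem (m M : ℕ) (c : box r m M → K) (g : Gam r) (hg : g ∉ box r m M) :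
    (ofBox m M c).coeff g = 0 := by
  show (∑ g : box r m M, MonoidAlgebra.single g.1 (c g)).coeff g = _
  rw [MonoidAlgebra.coeff_sum, Finsupp.finsetSum_apply]
  apply Finset.sum_eq_zero
  intro b _
  rw [MonoidAlgebra.coeff_single, Finsupp.single_eq_of_ne]
  rintro rfl
  exact hg b.2

theorem ore_cond [NeZero r] (a s : MonoidAlgebra K (Gam r)) (hs : s ≠ 0) :
    ∃ p q : MonoidAlgebra K (Gam r), p ≠ 0 ∧ p * a = q * s := by
  classical
  obtain ⟨d1, hd1⟩ := exists_box a
  obtain ⟨d2, hd2⟩ := exists_box s
  set d := max d1 d2 with hd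
  have ha : ∀ g, g ∉ box r d d → a.coeff g = 0 := by
    intro g hg
    apply hd1
    intro h
    apply hg
    rw [mem_box] at h ⊢
    omega
  have hs' : ∀ g, g ∉ box r d d → s.coeff g = 0 := by
    intro g hg
    apply hd2
    intro h
    apply hg
    rw [mem_box] at h ⊢
    omega
  set M := (2 * d + 1) * (r ^ d * d) with hM
  let Φ : ((box r d M → K) × (box r d M → K)) →ₗ[K] (box r (d + d) (M + r ^ d * d) → K) :=
    { toFun := fun c => fun g => (ofBox d M c.1 * a - ofBox d M c.2 * s).coeff g.1
      map_add' := by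
        intro c c'
        funext g
        simp only [Prod.fst_add, Prod.snd_add, map_add, add_mul, Pi.add_apply]
        simp only [MonoidAlgebra.coeff_add, MonoidAlgebra.coeff_sub, Finsupp.add_apply,
          Finsupp.sub_apply]
        ring
      map_smul' := by
        intro t c
        funext g
        simp only [Prod.smul_fst, Prod.smul_snd, map_smul, Algebra.smul_mul_assoc,
          RingHom.id_apply, Pi.smul_apply]
        simp only [MonoidAlgebra.coeff_sub, MonoidAlgebra.coeff_smul, Finsupp.sub_apply,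
          Finsupp.smul_apply, smul_sub] }
  have hdim : Module.finrank K (box r (d + d) (M + r ^ d * d) → K)
      < Module.finrank K ((box r d M → K) × (box r d M → K)) := by
    rw [Module.finrank_prod, Module.finrank_pi, Module.finrank_pi, Fintype.card_coe,
      Fintype.card_coe, card_box, card_box]
    nlinarith [hM]
  have hker := LinearMap.ker_ne_bot_of_finrank_lt (f := Φ) hdim
  obtain ⟨c, hc, hc0⟩ := Submodule.exists_mem_ne_zero_of_ne_bot hker
  rw [LinearMap.mem_ker] at hc
  have heq : ofBox d M c.1 * a = ofBox d M c.2 * s := by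
    rw [← sub_eq_zero]
    ext g
    by_cases hg : g ∈ box r (d + d) (M + r ^ d * d)
    · have := congrFun hc ⟨g, hg⟩
      exact this
    · rw [MonoidAlgebra.coeff_sub, Finsupp.sub_apply,
        support_mul_box (ofBox_coeff_of_notMem d M c.1) ha g hg,
        support_mul_box (ofBox_coeff_of_notMem d M c.2) hs' g hg, sub_zero]
      rfl
  have hinj : ∀ c : box r d M → K, ofBox d M c = 0 → c = 0 := by
    intro c hc
    funext g
    rw [← ofBox_coeff_of_mem d M c g.1 g.2, hc]
    rfl
  refine ⟨_, _, ?_, heq⟩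
  intro hp
  rw [hp, zero_mul] at heq
  have h2 : ofBox d M c.2 = 0 := by
    rcases mul_eq_zero.mp heq.symm with h | h
    · exact h
    · exact absurd h hs
  apply hc0
  exact Prod.ext (hinj _ hp) (hinj _ h2)

instance gamDomain [NeZero r] : IsDomain (MonoidAlgebra K (Gam r)) :=
  NoZeroDivisors.to_isDomain _

lemma ore_cond' [NeZero r] (a : MonoidAlgebra K (Gam r))
    (s : nonZeroDivisors (MonoidAlgebra K (Gam r))) :
    ∃ pq : nonZeroDivisors (MonoidAlgebra K (Gam r)) × MonoidAlgebra K (Gam r),
      (pq.1 : MonoidAlgebra K (Gam r)) * a = pq.2 * s := by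
  obtain ⟨p, q, hp, h⟩ := ore_cond a s.1 (nonZeroDivisors.ne_zero s.2)
  exact ⟨(⟨p, mem_nonZeroDivisors_of_ne_zero hp⟩, q), h⟩

noncomputable instance gamOre [NeZero r] :
    OreLocalization.OreSet (nonZeroDivisors (MonoidAlgebra K (Gam r))) where
  ore_right_cancel r₁ r₂ s h := ⟨1, by
    have := mul_right_cancel₀ (nonZeroDivisors.ne_zero s.2) h
    rw [this]⟩
  oreNum a s := (ore_cond' a s).choose.2
  oreDenom a s := (ore_cond' a s).choose.1
  ore_eq a s := (ore_cond' a s).choose_spec

end ore

section emb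

/-- the embedding of monoids -/
def wordHom (n : ℕ) : FreeMonoid (Fin n) →* Gam (n + 2) :=
  FreeMonoid.lift (fun j => ⟨j.1, 1⟩)

lemma wordHom_injective (n : ℕ) : Function.Injective (wordHom n) := by
  intro v
  induction v using FreeMonoid.inductionOn' with
  | one =>
    intro w h
    have h1 := congrArg Gam.k h
    induction w using FreeMonoid.casesOn with
    | one => rfl
    | of_mul j w =>
      simp only [wordHom, map_one, map_mul, FreeMonoid.lift_eval_of, Gam.mul_k, Gam.one_k] at h1
      omega
  | of_mul i v ih =>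
    intro w h
    induction w using FreeMonoid.casesOn with
    | one =>
      have h1 := congrArg Gam.k h
      simp only [wordHom, map_one, map_mul, FreeMonoid.lift_eval_of, Gam.mul_k, Gam.one_k] at h1
      omega
    | of_mul j w =>
      have h1 := congrArg Gam.k h
      have h2 := congrArg Gam.a h
      simp only [map_mul, Gam.mul_k, Gam.mul_a] at h1 h2
      have hi : wordHom n (FreeMonoid.of i) = ⟨i.1, 1⟩ := rfl
      have hj : wordHom n (FreeMonoid.of j) = ⟨j.1, 1⟩ := rfl
      rw [hi, hj] at h1 h2
      simp only [pow_one] at h1 h2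
      have hi2 := i.2
      have hj2 := j.2
      have hij : i.1 = j.1 := by
        have e1 : (i.1 + (n + 2) * (wordHom n v).a) % (n + 2) = i.1 := by
          rw [Nat.add_mul_mod_self_left, Nat.mod_eq_of_lt (by omega)]
        have e2 : (j.1 + (n + 2) * (wordHom n w).a) % (n + 2) = j.1 := by
          rw [Nat.add_mul_mod_self_left, Nat.mod_eq_of_lt (by omega)]
        rw [← e1, ← e2, h2]
      have hvw : wordHom n v = wordHom n w := by
        ext
        · rw [hij] at h2
          have h3 : (n + 2) * (wordHom n v).a = (n + 2) * (wordHom n w).a := by omega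
          exact Nat.eq_of_mul_eq_mul_left (by omega) h3
        · omega
      rw [ih hvw, Fin.ext hij]

theorem embDiv_free (K : Type u) [Field K] (n : ℕ) :
    EmbDiv (MonoidAlgebra K (FreeMonoid (Fin n))) := by
  have : NeZero (n + 2) := ⟨by omega⟩
  let R := MonoidAlgebra K (Gam (n + 2))
  refine ⟨OreLocalization (nonZeroDivisors R) R, inferInstance,
    (OreLocalization.numeratorRingHom).comp (MonoidAlgebra.mapDomainRingHom K (wordHom n)), ?_⟩
  rw [RingHom.coe_comp]
  apply Function.Injective.comp
  · exact OreLocalization.numeratorHom_inj (fun x hx => hx.1)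
  · exact MonoidAlgebra.mapDomain_injective (wordHom_injective n)

theorem embDiv_commDomain (Λ : Type u) [CommRing Λ] [IsDomain Λ] : EmbDiv Λ :=
  ⟨FractionRing Λ, inferInstance, algebraMap Λ (FractionRing Λ), IsFractionRing.injective _ _⟩

theorem eProp_free (K : Type u) [Field K] (n : ℕ) :
    EProp (MonoidAlgebra K (FreeMonoid (Fin n))) :=
  EProp.monoidAlgebra (EProp.of_commDomain K) (NilProp.of_commDomain K) (embDiv_commDomain K)

theorem nilProp_free (K : Type u) [Field K] (n : ℕ) :
    NilProp (MonoidAlgebra K (FreeMonoid (Fin n))) :=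
  NilProp.monoidAlgebra (EProp.monoidAlgebra (EProp.of_commDomain _) (NilProp.of_commDomain _)
    (embDiv_commDomain _))

/-- the main result: matrices over `K⟨Y⟩⟨X⟩` are detected by evaluations -/
theorem eProp_free_free (K : Type u) [Field K] (n m : ℕ) :
    EProp (MonoidAlgebra (MonoidAlgebra K (FreeMonoid (Fin n))) (FreeMonoid (Fin m))) :=
  EProp.monoidAlgebra (eProp_free K n) (nilProp_free K n) (embDiv_free K n)

end emb

end Pool.Agent.H193R3
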