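import Mathlib

set_option autoImplicit false

/-!
Rings over which matrices are detected by evaluations into matrix rings over commutative domains.
-/

namespace Pool.Agent.H193R3

universe u v w

open Matrix

/-- every square matrix over `Λ` which becomes invertible under every homomorphism into a matrix
ring over a commutative domain is invertible -/
def EProp (Λ : Type u) [Ring Λ] : Prop :=
  ∀ (ι : Type) [Fintype ι] [DecidableEq ι] (L : Matrix ι ι Λ),
    (∀ (κ : Type) [Fintype κ] [DecidableEq κ] (R : Type u) [CommRing R] [IsDomain R]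
      (ev : Λ →+* Matrix κ κ R), IsUnit (ev.mapMatrix L)) → IsUnit L

/-- the same for nilpotency -/
def NilProp (Λ : Type u) [Ring Λ] : Prop :=
  ∀ (ι : Type) [Fintype ι] [DecidableEq ι] (T : Matrix ι ι Λ),
    (∀ (κ : Type) [Fintype κ] [DecidableEq κ] (R : Type u) [CommRing R] [IsDomain R]
      (ev : Λ →+* Matrix κ κ R), IsNilpotent (ev.mapMatrix T)) → IsNilpotent T

lemma EProp.of_ringEquiv {Λ Λ' : Type u} [Ring Λ] [Ring Λ'] (e : Λ ≃+* Λ') (h : EProp Λ) :
    EProp Λ' := by
  intro ι _ _ L hL
  have h1 : IsUnit (e.symm.toRingHom.mapMatrix L) := by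
    apply h
    intro κ _ _ R _ _ ev
    exact hL κ R (ev.comp e.symm.toRingHom)
  have h2 := h1.map (e.toRingHom.mapMatrix (m := ι))
  have h3 : e.toRingHom.mapMatrix (e.symm.toRingHom.mapMatrix L) = L := by
    ext i j
    simp
  rwa [h3] at h2

lemma NilProp.of_ringEquiv {Λ Λ' : Type u} [Ring Λ] [Ring Λ'] (e : Λ ≃+* Λ') (h : NilProp Λ) :
    NilProp Λ' := by
  intro ι _ _ L hL
  have h1 : IsNilpotent (e.symm.toRingHom.mapMatrix L) := by
    apply h
    intro κ _ _ R _ _ ev
    exact hL κ R (ev.comp e.symm.toRingHom)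
  have h2 := h1.map (e.toRingHom.mapMatrix (m := ι))
  have h3 : e.toRingHom.mapMatrix (e.symm.toRingHom.mapMatrix L) = L := by
    ext i j
    simp
  rwa [h3] at h2

lemma EProp.of_commDomain (Λ : Type u) [CommRing Λ] [IsDomain Λ] : EProp Λ := by
  intro ι _ _ L hL
  have h := hL Unit Λ (Matrix.scalar Unit)
  obtain ⟨V, hV⟩ := h.exists_right_inv
  have h1 : L * (V.map (fun M => M () ())) = 1 := by
    ext a b
    have h2 := congrFun (congrFun (congrFun (congrFun hV a) b) ()) ()
    rw [Matrix.mul_apply] at h2 ⊢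
    rw [Matrix.sum_apply] at h2
    simp only [RingHom.mapMatrix_apply, Matrix.map_apply, Matrix.mul_apply,
      Finset.univ_unique, Finset.sum_singleton, Matrix.scalar_apply] at h2 ⊢
    rw [Matrix.one_apply] at h2 ⊢
    split_ifs at h2 ⊢ with h3
    · simpa using h2
    · simpa using h2
  exact IsUnit.of_mul_eq_one _ h1

lemma NilProp.of_commDomain (Λ : Type u) [CommRing Λ] [IsDomain Λ] : NilProp Λ := by
  intro ι _ _ T hT
  obtain ⟨k, hk⟩ := hT Unit Λ (Matrix.scalar Unit)
  refine ⟨k, ?_⟩
  rw [← map_pow] at hk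
  ext a b
  have h2 := congrFun (congrFun (congrFun (congrFun hk a) b) ()) ()
  simpa using h2

/-- polynomial matrices have uniformly bounded degree -/
lemma exists_coeff_bound {B : Type v} [Ring B] {ι : Type w} [Fintype ι]
    (Q : Matrix ι ι (Polynomial B)) : ∃ m : ℕ, ∀ k, m ≤ k → ∀ a b, (Q a b).coeff k = 0 := by
  refine ⟨(∑ a, ∑ b, (Q a b).natDegree) + 1, fun k hk a b => ?_⟩
  apply Polynomial.coeff_eq_zero_of_natDegree_lt
  have h1 : (Q a b).natDegree ≤ ∑ b, (Q a b).natDegree :=
    Finset.single_le_sum (f := fun b => (Q a b).natDegree) (fun _ _ => Nat.zero_le _)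
      (Finset.mem_univ b)
  have h2 : ∑ b, (Q a b).natDegree ≤ ∑ a, ∑ b, (Q a b).natDegree :=
    Finset.single_le_sum (f := fun a => ∑ b, (Q a b).natDegree) (fun _ _ => Nat.zero_le _)
      (Finset.mem_univ a)
  omega

lemma nilpotent_of_isUnit_poly {B : Type v} [Ring B] {ι : Type w} [Fintype ι] [DecidableEq ι]
    (T : Matrix ι ι B)
    (h : IsUnit (1 - T.map (fun a => (Polynomial.X : Polynomial B) * Polynomial.C a))) :
    IsNilpotent T := by
  obtain ⟨Q, hQ⟩ := h.exists_right_inv
  have hQ2 : ∀ a b, Q a b = (1 : Matrix ι ι (Polynomial B)) a b +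
      ∑ c, Polynomial.X * (Polynomial.C (T a c) * Q c b) := by
    intro a b
    have h1 := congrFun (congrFun hQ a) b
    rw [sub_mul, one_mul, Matrix.sub_apply, Matrix.mul_apply] at h1
    rw [← h1]
    simp only [Matrix.map_apply, mul_assoc, sub_add_cancel]
  have hpow : ∀ m : ℕ, Q.map (fun p => p.coeff m) = T ^ m := by
    intro m
    induction m with
    | zero =>
      ext a b
      rw [Matrix.map_apply, hQ2, Polynomial.coeff_add, Polynomial.finsetSum_coeff]
      rw [Finset.sum_eq_zero (fun c _ => by rw [Polynomial.coeff_X_mul_zero])]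
      rw [add_zero, pow_zero, Matrix.one_apply, Matrix.one_apply]
      split_ifs <;> simp
    | succ m ih =>
      ext a b
      rw [Matrix.map_apply, hQ2, Polynomial.coeff_add, Polynomial.finsetSum_coeff]
      simp only [Polynomial.coeff_X_mul, Polynomial.coeff_C_mul]
      rw [pow_succ', ← ih, Matrix.mul_apply]
      simp only [Matrix.map_apply]
      rw [Matrix.one_apply]
      split_ifs <;> simp [Polynomial.coeff_one]
  obtain ⟨m, hm⟩ := exists_coeff_bound Q
  refine ⟨m, ?_⟩
  rw [← hpow m]
  ext a b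
  rw [Matrix.map_apply, hm m le_rfl]
  rfl

end Pool.Agent.H193R3
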