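import Pool.Agent.H193R3.PartC

set_option autoImplicit false

/-!
Endomorphisms approximable by automorphisms are bijective.
-/

namespace Pool.Agent.H193R3

universe u

open Polynomial

variable {K : Type u} [Field K] {n : ℕ}

lemma tr_zero (a : FA K n) : tr (fun _ => (0 : K)) a = a := by
  have : tr (fun _ => (0 : K)) = AlgHom.id K (FA K n) := by
    apply FA_hom_ext
    intro i
    rw [tr_gx, zero_smul, add_zero]
    rfl
  rw [this]
  rfl

lemma hom_sub_ordGE {m : ℕ} (f g : FA K n →ₐ[K] FA K n)
    (h : ∀ i, OrdGE m (f (gx i) - g (gx i))) (a : FA K n) : OrdGE m (f a - g a) := by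
  induction a using FA_induction with
  | h0 => rw [map_zero, map_zero, sub_zero]; exact OrdGE.zero
  | hadd x y hx hy =>
    have : f (x + y) - g (x + y) = (f x - g x) + (f y - g y) := by
      rw [map_add, map_add]; abel
    rw [this]
    exact hx.add hy
  | hmon w c =>
    rw [map_smul, map_smul, ← smul_sub]
    apply OrdGE.smul
    induction w using FreeMonoid.inductionOn' with
    | one => rw [mon_one, map_one, map_one, sub_self]; exact OrdGE.zero
    | of_mul i w ih =>
      have : f (mon (FreeMonoid.of i * w)) - g (mon (FreeMonoid.of i * w))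
          = f (gx i) * (f (mon w) - g (mon w)) + (f (gx i) - g (gx i)) * g (mon w) := by
        rw [mon_mul, mon_of, map_mul, map_mul, mul_sub, sub_mul]
        abel
      rw [this]
      have h1 := (OrdGE.all (f (gx i))).mul ih
      have h2 := (h i).mul (OrdGE.all (g (mon w)))
      rw [zero_add] at h1
      rw [add_zero] at h2
      exact h1.add h2

/-- translation as an automorphism -/
noncomputable def trE (p : Fin n → K) : FA K n ≃ₐ[K] FA K n :=
  AlgEquiv.ofAlgHom (tr p) (tr (fun j => -p j))
    (AlgHom.ext fun a => tr_tr p (fun j => -p j) (fun j => by simp) a)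
    (AlgHom.ext fun a => tr_tr (fun j => -p j) p (fun j => by simp) a)

lemma trE_apply (p : Fin n → K) (a : FA K n) : trE p a = tr p a := rfl

theorem surj_of_approx' (φ : FA K n →ₐ[K] FA K n) (happ : Approx' φ) :
    Function.Surjective φ := by
  let c : Fin n → K := fun j => -eps K n (φ (gx j))
  have h1 : Function.Surjective (φ.comp (tr c)) := by
    apply surj_of_approx
    · intro i
      rw [AlgHom.comp_apply, tr_gx, map_add, map_smul, map_one, map_add, map_smul, map_one,
        smul_eq_mul, mul_one]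
      simp [c]
    · intro m
      obtain ⟨p, α, hα⟩ := happ m
      refine ⟨p, (trE c).trans α, fun i => ?_⟩
      have h2 : (φ.comp (tr c)) (gx i) - ((trE c).trans α) (gx i) = φ (gx i) - α (gx i) := by
        show φ (tr c (gx i)) - α (tr c (gx i)) = _
        rw [tr_gx, map_add, map_smul, map_one, map_add, map_smul, map_one]
        abel
      rw [h2]
      exact hα i
  intro a
  obtain ⟨b, hb⟩ := h1 a
  exact ⟨tr c b, hb⟩

theorem inj_of_approx' (φ : FA K n →ₐ[K] FA K n) (happ : Approx' φ) :
    Function.Injective φ := by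
  rw [injective_iff_map_eq_zero]
  intro h hh
  obtain ⟨d, hd⟩ := bd_sigA h
  obtain ⟨p, α, hα⟩ := happ (d + 1)
  let p' : Fin n → K := fun j => -p j
  have hpp : ∀ j, p j + p' j = 0 := fun j => by simp [p']
  have hpp' : ∀ j, p' j + p j = 0 := fun j => by simp [p']
  let q : Fin n → K := fun j => eps K n (tr p (α (gx j)))
  let q' : Fin n → K := fun j => -q j
  have hqq' : ∀ j, q' j + q j = 0 := fun j => by simp [q']
  have hα1 : (eps K n).comp (tr q)
      = ((eps K n).comp (tr p)).comp (α : FA K n →ₐ[K] FA K n) := by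
    apply FA_hom_ext
    intro i
    show eps K n (tr q (gx i)) = eps K n (tr p (α (gx i)))
    rw [tr_gx, map_add, eps_gx, map_smul, map_one, zero_add, smul_eq_mul, mul_one]
  let β : FA K n →ₐ[K] FA K n :=
    ((tr q).comp (α.symm : FA K n →ₐ[K] FA K n)).comp (tr p')
  have hβ : ∀ i, OrdGE 1 (β (gx i)) := by
    intro i
    rw [ordGE_one_iff]
    have h1 := congrArg (fun g : FA K n →ₐ[K] K => g (α.symm (tr p' (gx i)))) hα1
    simp only [AlgHom.comp_apply] at h1
    have h2 : (α : FA K n →ₐ[K] FA K n) (α.symm (tr p' (gx i))) = tr p' (gx i) :=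
      α.apply_symm_apply _
    rw [h2, tr_tr p p' hpp, eps_gx] at h1
    exact h1
  have h3 : OrdGE (d + 1) (tr p (φ h) - tr p (α h)) :=
    hom_sub_ordGE ((tr p).comp φ) ((tr p).comp (α : FA K n →ₐ[K] FA K n)) (fun i => by
      have := hα i
      rw [map_sub] at this
      exact this) h
  rw [hh, map_zero, zero_sub] at h3
  have h4 : OrdGE (d + 1) (tr p (α h)) := by
    have := h3.neg
    rwa [neg_neg] at this
  have h5 : OrdGE (d + 1) (tr q h) := by
    have h6 := h4.map β hβ
    have h7 : β (tr p (α h)) = tr q h := by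
      show tr q (α.symm (tr p' (tr p (α h)))) = tr q h
      rw [tr_tr p' p hpp', α.symm_apply_apply]
    rwa [h7] at h6
  have h8 : sigA K n (tr q h) = 0 := by
    ext1 k
    rw [coeff_zero]
    rcases Nat.lt_or_ge k (d + 1) with hk | hk
    · exact sigA_coeff _ (d + 1) h5 k hk
    · exact coeff_eq_zero_of_natDegree_lt (lt_of_le_of_lt (hd q) hk)
  have h9 : tr q h = 0 := by
    rw [← sigA_eval (tr q h), h8, eval_zero]
  rw [← tr_tr q' q hqq' h, h9, map_zero]

theorem bij_of_approx' (φ : FA K n →ₐ[K] FA K n) (happ : Approx' φ) : Function.Bijective φ :=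
  ⟨inj_of_approx' φ happ, surj_of_approx' φ happ⟩

/-- identification of the free algebra with the free monoid algebra -/
noncomputable abbrev ee (K : Type u) [Field K] (n : ℕ) : FreeAlgebra K (Fin n) ≃ₐ[K] FA K n :=
  FreeAlgebra.equivMonoidAlgebraFreeMonoid

lemma ee_ι (i : Fin n) : ee K n (FreeAlgebra.ι K i) = gx i := by
  simp [ee, FreeAlgebra.equivMonoidAlgebraFreeMonoid, gx]

lemma ee_prod (l : List (Fin n)) :
    ee K n ((l.map (FreeAlgebra.ι K)).prod) = mon (FreeMonoid.ofList l) := by
  induction l with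
  | nil => rw [List.map_nil, List.prod_nil, map_one]; rfl
  | cons i l ih =>
    rw [List.map_cons, List.prod_cons, map_mul, ih, ee_ι, FreeMonoid.ofList_cons, mon_mul]
    rfl

/-- transport of an endomorphism -/
noncomputable def tp (φ : FreeAlgebra K (Fin n) →ₐ[K] FreeAlgebra K (Fin n)) :
    FA K n →ₐ[K] FA K n :=
  ((ee K n : FreeAlgebra K (Fin n) →ₐ[K] FA K n).comp φ).comp
    ((ee K n).symm : FA K n →ₐ[K] FreeAlgebra K (Fin n))

lemma tp_apply (φ : FreeAlgebra K (Fin n) →ₐ[K] FreeAlgebra K (Fin n)) (a : FA K n) :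
    tp φ a = ee K n (φ ((ee K n).symm a)) := rfl

lemma tp_gx (φ : FreeAlgebra K (Fin n) →ₐ[K] FreeAlgebra K (Fin n)) (i : Fin n) :
    tp φ (gx i) = ee K n (φ (FreeAlgebra.ι K i)) := by
  rw [tp_apply, ← ee_ι, AlgEquiv.symm_apply_apply]

lemma bij_of_tp (φ : FreeAlgebra K (Fin n) →ₐ[K] FreeAlgebra K (Fin n))
    (h : Function.Bijective (tp φ)) : Function.Bijective φ := by
  have h1 : (φ : FreeAlgebra K (Fin n) → FreeAlgebra K (Fin n))
      = (ee K n).symm ∘ (tp φ) ∘ (ee K n) := by
    funext a
    show φ a = (ee K n).symm (tp φ (ee K n a))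
    rw [tp_apply, AlgEquiv.symm_apply_apply, AlgEquiv.symm_apply_apply]
  rw [h1]
  exact (ee K n).symm.bijective.comp (h.comp (ee K n).bijective)

end Pool.Agent.H193R3
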