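import Pool.Agent.H193R3.Calc

set_option autoImplicit false

/-!
The gradings of the free algebra and of its enveloping algebra, as homomorphisms to polynomials.
-/

namespace Pool.Agent.H193R3

universe u

open scoped TensorProduct
open MulOpposite Polynomial

variable {K : Type u} [Field K] {n : ℕ}

/-- order at least `m` -/
def OrdGE (m : ℕ) (a : FA K n) : Prop := ∀ w : FreeMonoid (Fin n), w.length < m → a.coeff w = 0

lemma OrdGE.add {m : ℕ} {a b : FA K n} (ha : OrdGE m a) (hb : OrdGE m b) : OrdGE m (a + b) := by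
  intro w hw
  rw [MonoidAlgebra.coeff_add, Finsupp.add_apply, ha w hw, hb w hw, add_zero]

lemma OrdGE.zero {m : ℕ} : OrdGE m (0 : FA K n) := fun _ _ => rfl

lemma OrdGE.smul {m : ℕ} (c : K) {a : FA K n} (ha : OrdGE m a) : OrdGE m (c • a) := by
  intro w hw
  rw [MonoidAlgebra.coeff_smul, Finsupp.smul_apply, ha w hw, smul_zero]

lemma OrdGE.neg {m : ℕ} {a : FA K n} (ha : OrdGE m a) : OrdGE m (-a) := by
  intro w hw
  rw [MonoidAlgebra.coeff_neg, Finsupp.neg_apply, ha w hw, neg_zero]

lemma OrdGE.sub {m : ℕ} {a b : FA K n} (ha : OrdGE m a) (hb : OrdGE m b) : OrdGE m (a - b) := by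
  rw [sub_eq_add_neg]; exact ha.add hb.neg

lemma OrdGE.mono {m m' : ℕ} (h : m ≤ m') {a : FA K n} (ha : OrdGE m' a) : OrdGE m a :=
  fun w hw => ha w (by omega)

lemma OrdGE.all (a : FA K n) : OrdGE 0 a := fun w hw => by omega

lemma OrdGE.mul {p q : ℕ} {a b : FA K n} (ha : OrdGE p a) (hb : OrdGE q b) :
    OrdGE (p + q) (a * b) := by
  classical
  intro w hw
  rw [MonoidAlgebra.coeff_mul, Finsupp.sum]
  apply Finset.sum_eq_zero
  intro x hx
  rw [Finsupp.sum]
  apply Finset.sum_eq_zero
  intro y hy
  rw [if_neg]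
  rintro rfl
  rw [FreeMonoid.length_mul] at hw
  rcases Nat.lt_or_ge x.length p with h | h
  · exact (Finsupp.mem_support_iff.mp hx) (ha x h)
  · exact (Finsupp.mem_support_iff.mp hy) (hb y (by omega))

lemma OrdGE.mon (w : FreeMonoid (Fin n)) {m : ℕ} (h : m ≤ w.length) :
    OrdGE m (mon w : FA K n) := by
  intro v hv
  rw [Pool.Agent.H193R3.mon, MonoidAlgebra.coeff_single, Finsupp.single_eq_of_ne]
  rintro rfl
  omega

/-- decomposition of an element as a sum of monomials -/
lemma FA_sum (a : FA K n) : a = ∑ w ∈ a.coeff.support, a.coeff w • mon w := by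
  conv_lhs => rw [← MonoidAlgebra.sum_coeff_single a]
  rw [Finsupp.sum]
  apply Finset.sum_congr rfl
  intro w _
  rw [single_eq]

lemma OrdGE.map {m : ℕ} {a : FA K n} (ha : OrdGE m a) (α : FA K n →ₐ[K] FA K n)
    (hα : ∀ i, OrdGE 1 (α (gx i))) : OrdGE m (α a) := by
  have hmon : ∀ w : FreeMonoid (Fin n), OrdGE w.length (α (Pool.Agent.H193R3.mon w)) := by
    intro w
    induction w using FreeMonoid.inductionOn' with
    | one => exact OrdGE.all _
    | of_mul i w ih =>
      rw [mon_mul, mon_of, map_mul, FreeMonoid.length_mul, FreeMonoid.length_of]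
      exact (hα i).mul ih
  rw [FA_sum a, map_sum]
  have : ∀ (s : Finset (FreeMonoid (Fin n))), (∀ w ∈ s, m ≤ w.length) →
      OrdGE m (∑ w ∈ s, α (a.coeff w • Pool.Agent.H193R3.mon w)) := by
    classical
    intro s
    induction s using Finset.induction_on with
    | empty => intro _; exact OrdGE.zero
    | insert v s hv ih =>
      intro h
      rw [Finset.sum_insert hv, map_smul]
      exact (((hmon v).mono (h v (Finset.mem_insert_self _ _))).smul _).add
        (ih (fun w hw => h w (Finset.mem_insert_of_mem hw)))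
  apply this
  intro w hw
  by_contra hlt
  exact (Finsupp.mem_support_iff.mp hw) (ha w (by omega))

/-- grading of the free algebra -/
noncomputable def sigA (K : Type u) [Field K] (n : ℕ) : FA K n →ₐ[K] (FA K n)[X] :=
  MonoidAlgebra.lift K (FA K n)[X] (FreeMonoid (Fin n)) (FreeMonoid.lift (fun j => C (gx j) * X))

lemma lift_word {B : Type u} [Ring B] [Algebra K B] (f : FA K n → B) (h1 : f 1 = 1)
    (hmul : ∀ a b, f (a * b) = f a * f b) (w : FreeMonoid (Fin n)) :
    FreeMonoid.lift (fun j => C (f (gx j)) * X) w = C (f (mon w)) * X ^ w.length := by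
  induction w using FreeMonoid.inductionOn' with
  | one => rw [map_one, mon_one, h1]; simp
  | of_mul i w ih =>
    rw [map_mul, FreeMonoid.lift_eval_of, ih, mon_mul, hmul, mon_of, C_mul, FreeMonoid.length_mul,
      FreeMonoid.length_of, pow_add, pow_one]
    rw [mul_assoc, ← mul_assoc X, X_mul_C, mul_assoc, mul_assoc]

lemma sigA_mon (w : FreeMonoid (Fin n)) : sigA K n (mon w) = C (mon w) * X ^ w.length := by
  rw [sigA, mon, MonoidAlgebra.lift_single, one_smul]
  exact lift_word (K := K) (fun a => a) rfl (fun _ _ => rfl) w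

/-- left grading map -/
noncomputable def sigL (K : Type u) [Field K] (n : ℕ) : FA K n →ₐ[K] (AA K n)[X] :=
  MonoidAlgebra.lift K (AA K n)[X] (FreeMonoid (Fin n))
    (FreeMonoid.lift (fun j => C (ll K n (gx j)) * X))

lemma sigL_mon (w : FreeMonoid (Fin n)) :
    sigL K n (mon w) = C (ll K n (mon w)) * X ^ w.length := by
  rw [sigL, mon, MonoidAlgebra.lift_single, one_smul]
  exact lift_word (K := K) (fun a => ll K n a) (map_one _) (map_mul _) w

/-- right grading map -/
noncomputable def sigR (K : Type u) [Field K] (n : ℕ) : FA K n →ₐ[K] ((AA K n)[X])ᵐᵒᵖ :=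
  MonoidAlgebra.lift K ((AA K n)[X])ᵐᵒᵖ (FreeMonoid (Fin n))
    (FreeMonoid.lift (fun j => op (C (rr K n (gx j)) * X)))

lemma sigR_mon (w : FreeMonoid (Fin n)) :
    sigR K n (mon w) = op (C (rr K n (mon w)) * X ^ w.length) := by
  rw [sigR, mon, MonoidAlgebra.lift_single, one_smul]
  induction w using FreeMonoid.inductionOn' with
  | one =>
    rw [map_one]
    show _ = op (C (rr K n 1) * X ^ 0)
    rw [rr_one, pow_zero, mul_one, C_1, op_one]
  | of_mul i w ih =>
    rw [map_mul, FreeMonoid.lift_eval_of, ih]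
    have : (MonoidAlgebra.single (FreeMonoid.of i * w) 1 : FA K n) = gx i * mon w := by
      rw [← mon_of, ← mon_mul]; rfl
    rw [this, rr_mul, FreeMonoid.length_mul, FreeMonoid.length_of, ← op_mul, C_mul, add_comm,
      pow_add, pow_one]
    congr 1
    rw [mul_assoc, mul_assoc, ← mul_assoc (X ^ w.length), X_pow_mul_C, mul_assoc]
    rfl

lemma sig_comm (a b : FA K n) : Commute (sigL K n a) (unop (sigR K n b)) := by
  induction a using FA_induction with
  | h0 => rw [map_zero]; exact Commute.zero_left _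
  | hadd x y hx hy => rw [map_add]; exact hx.add_left hy
  | hmon v c =>
    rw [map_smul]
    apply Commute.smul_left
    induction b using FA_induction with
    | h0 => rw [map_zero, unop_zero]; exact Commute.zero_right _
    | hadd x y hx hy => rw [map_add, unop_add]; exact hx.add_right hy
    | hmon w c =>
      rw [map_smul, unop_smul]
      apply Commute.smul_right
      rw [sigL_mon, sigR_mon, unop_op]
      have h1 : Commute (C (ll K n (mon v)) : (AA K n)[X]) (C (rr K n (mon w))) := by
        show _ * _ = _ * _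
        rw [← C_mul, ← C_mul, ll_rr_comm]
      have h2 : ∀ (p : (AA K n)[X]) (k : ℕ), Commute p (X ^ k) := fun p k =>
        (Polynomial.commute_X_pow p k).symm
      exact ((h1.mul_left (h2 _ _).symm).mul_right (h2 _ _))

lemma sig_comm' (a : FA K n) (b : (FA K n)ᵐᵒᵖ) :
    Commute (sigL K n a) (AlgHom.opComm (sigR K n) b) := sig_comm a (unop b)

/-- grading of the enveloping algebra -/
noncomputable def sig (K : Type u) [Field K] (n : ℕ) : AA K n →ₐ[K] (AA K n)[X] :=
  Algebra.TensorProduct.lift (sigL K n) (AlgHom.opComm (sigR K n)) sig_comm'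

lemma sig_ll (a : FA K n) : sig K n (ll K n a) = sigL K n a :=
  (Algebra.TensorProduct.lift_tmul (sigL K n) (AlgHom.opComm (sigR K n)) sig_comm' a 1).trans
    (by rw [map_one, mul_one])

lemma sig_rr (a : FA K n) : sig K n (rr K n a) = unop (sigR K n a) :=
  (Algebra.TensorProduct.lift_tmul (sigL K n) (AlgHom.opComm (sigR K n)) sig_comm' 1 (op a)).trans
    (by rw [map_one, one_mul]; rfl)

/-- evaluation at one as a ring homomorphism -/
noncomputable def evOne (B : Type u) [Ring B] : B[X] →+* B :=
  Polynomial.eval₂RingHom' (RingHom.id B) 1 (fun _ => Commute.one_right _)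

lemma evOne_C_mul_X {B : Type u} [Ring B] (b : B) (k : ℕ) : evOne B (C b * X ^ k) = b := by
  have h1 : evOne B (C b) = b := by
    show Polynomial.eval₂ (RingHom.id B) 1 (C b) = b
    rw [Polynomial.eval₂_C]; rfl
  have h2 : evOne B X = 1 := by
    show Polynomial.eval₂ (RingHom.id B) 1 X = 1
    rw [Polynomial.eval₂_X]
  rw [map_mul, map_pow, h1, h2, one_pow, mul_one]

lemma sigA_eval (a : FA K n) : (sigA K n a).eval 1 = a := by
  show evOne (FA K n) (sigA K n a) = a
  induction a using FA_induction with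
  | h0 => simp
  | hadd x y hx hy => rw [map_add, map_add, hx, hy]
  | hmon w c =>
    rw [map_smul, sigA_mon, ← smul_mul_assoc, Polynomial.smul_C, evOne_C_mul_X]

lemma evOne_sigL (a : FA K n) : evOne (AA K n) (sigL K n a) = ll K n a := by
  induction a using FA_induction with
  | h0 => simp
  | hadd x y hx hy => rw [map_add, map_add, hx, hy, map_add]
  | hmon w c =>
    rw [map_smul, sigL_mon, ← smul_mul_assoc, Polynomial.smul_C, evOne_C_mul_X, map_smul]

lemma evOne_sigR (a : FA K n) : evOne (AA K n) (unop (sigR K n a)) = rr K n a := by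
  induction a using FA_induction with
  | h0 => simp
  | hadd x y hx hy => rw [map_add, unop_add, map_add, hx, hy, map_add]
  | hmon w c =>
    rw [map_smul, sigR_mon, ← op_smul, unop_op, ← smul_mul_assoc, Polynomial.smul_C,
      evOne_C_mul_X, map_smul]

lemma sig_eval (m : AA K n) : (sig K n m).eval 1 = m := by
  show evOne (AA K n) (sig K n m) = m
  induction m using AA_induction with
  | h0 => simp
  | hadd x y hx hy => rw [map_add, map_add, hx, hy]
  | hpure a b =>
    rw [map_mul, map_mul, sig_ll, sig_rr, evOne_sigL, evOne_sigR]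

lemma sig_dd_mon (j : Fin n) (w : FreeMonoid (Fin n)) (k : ℕ) (hk : k + 1 ≠ w.length) :
    (sig K n (dd j (mon w))).coeff k = 0 := by
  induction w using FreeMonoid.inductionOn' generalizing k with
  | one => rw [mon_one, dd_one, map_zero, coeff_zero]
  | of_mul i w ih =>
    rw [FreeMonoid.length_mul, FreeMonoid.length_of] at hk
    rw [dd_of_mul, map_add, map_mul, sig_ll, ← mon_of, sigL_mon, FreeMonoid.length_of, pow_one,
      coeff_add]
    have h1 : (sig K n (if i = j then rr K n (mon w) else 0)).coeff k = 0 := by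
      split_ifs
      · rw [sig_rr, sigR_mon, unop_op, coeff_C_mul_X_pow, if_neg (by omega)]
      · rw [map_zero, coeff_zero]
    rw [h1, zero_add, mul_assoc, coeff_C_mul]
    rcases k with _ | k
    · rw [coeff_X_mul_zero, mul_zero]
    · rw [coeff_X_mul, ih k (by omega), mul_zero]

lemma sig_dd (j : Fin n) (a : FA K n) (m : ℕ) (ha : OrdGE m a) (k : ℕ) (hk : k + 1 < m) :
    (sig K n (dd j a)).coeff k = 0 := by
  rw [FA_sum a, map_sum, map_sum, finsetSum_coeff]
  apply Finset.sum_eq_zero
  intro w hw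
  rw [map_smul, map_smul, coeff_smul, sig_dd_mon, smul_zero]
  intro h
  exact (Finsupp.mem_support_iff.mp hw) (ha w (by omega))

lemma sigA_coeff (a : FA K n) (m : ℕ) (ha : OrdGE m a) (k : ℕ) (hk : k < m) :
    (sigA K n a).coeff k = 0 := by
  rw [FA_sum a, map_sum, finsetSum_coeff]
  apply Finset.sum_eq_zero
  intro w hw
  rw [map_smul, coeff_smul, sigA_mon, coeff_C_mul_X_pow, if_neg, smul_zero]
  intro h
  exact (Finsupp.mem_support_iff.mp hw) (ha w (by omega))

/-- approximable by automorphisms -/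
def Approx (φ : FA K n →ₐ[K] FA K n) : Prop :=
  ∀ m, ∃ α : FA K n ≃ₐ[K] FA K n, ∀ i, OrdGE m (φ (gx i) - α (gx i))

theorem Jac_allUnits (φ : FA K n →ₐ[K] FA K n) (hφ : Approx φ) : AllUnits (Jac φ) := by
  intro κ _ _ R _ _ ev
  have hd : ∃ d, ∀ a b k, d < k → (sig K n (Jac φ a b)).coeff k = 0 := by
    obtain ⟨d, hd⟩ := exists_coeff_bound (Matrix.of fun a b => sig K n (Jac φ a b))
    exact ⟨d, fun a b k hk => hd k hk.le a b⟩
  obtain ⟨d, hd⟩ := hd
  set m := Fintype.card (Fin n) * Fintype.card κ * d + 1 with hm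
  obtain ⟨α, hα⟩ := hφ (m + 1)
  obtain ⟨N, hN⟩ := Jac_left_inv α
  apply closure_unit (sig K n).toRingHom sig_eval ev (Jac φ) (Jac (α : FA K n →ₐ[K] FA K n)) N d m
    hd (by omega) (Or.inr hN)
  intro a b k hk
  have h1 : Jac φ a b - Jac (α : FA K n →ₐ[K] FA K n) a b = dd b (φ (gx a) - α (gx a)) := by
    rw [map_sub]; rfl
  rw [h1]
  exact sig_dd b _ (m + 1) (hα a) k (by omega)

end Pool.Agent.H193R3
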