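import Pool.Agent.H193R3.Calc

set_option autoImplicit false

/-!
The enveloping algebra of the free algebra has the detection property.
-/

namespace Pool.Agent.H193R3

universe u

open scoped TensorProduct
open MulOpposite

variable {K : Type u} [Field K] {n : ℕ}

/-- word reversal, as a homomorphism to the opposite algebra -/
noncomputable def revOp (K : Type u) [Field K] (n : ℕ) : FA K n →ₐ[K] (FA K n)ᵐᵒᵖ :=
  MonoidAlgebra.lift K (FA K n)ᵐᵒᵖ (FreeMonoid (Fin n)) (FreeMonoid.lift (fun j => op (gx j)))

lemma revOp_gx (j : Fin n) : revOp K n (gx j) = op (gx j) := by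
  rw [revOp, gx, MonoidAlgebra.lift_single, one_smul, FreeMonoid.lift_eval_of]
  rfl

lemma revOp_revOp (a : FA K n) : unop (revOp K n (unop (revOp K n a))) = a := by
  induction a using FA_induction with
  | h0 => simp
  | hadd x y hx hy => rw [map_add, unop_add, map_add, unop_add, hx, hy]
  | hmon w c =>
    rw [map_smul, unop_smul, map_smul, unop_smul]
    congr 1
    induction w using FreeMonoid.inductionOn' with
    | one => rw [mon_one, map_one, unop_one, map_one, unop_one]
    | of_mul i w ih =>
      rw [mon_mul, map_mul, unop_mul, map_mul, unop_mul, ih, mon_of, revOp_gx, unop_op, revOp_gx,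
        unop_op]

lemma revOp_revOp' (b : FA K n) : revOp K n (unop (revOp K n b)) = op b := by
  have := congrArg op (revOp_revOp b)
  rwa [op_unop] at this

/-- the iterated free monoid algebra -/
abbrev MM (K : Type u) [Field K] (n : ℕ) := MonoidAlgebra (FA K n) (FreeMonoid (Fin n))

/-- left embedding -/
noncomputable def fL (K : Type u) [Field K] (n : ℕ) : FA K n →ₐ[K] MM K n :=
  MonoidAlgebra.lift K (MM K n) (FreeMonoid (Fin n)) (MonoidAlgebra.of (FA K n) (FreeMonoid (Fin n)))

lemma fL_mon (w : FreeMonoid (Fin n)) : fL K n (mon w) = MonoidAlgebra.single w 1 := by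
  rw [fL, mon, MonoidAlgebra.lift_single, one_smul]
  rfl

lemma fL_comm (a b : FA K n) :
    Commute (fL K n a) (MonoidAlgebra.singleOneRingHom (R := FA K n)
      (M := FreeMonoid (Fin n)) b) := by
  induction a using FA_induction with
  | h0 => rw [map_zero]; exact Commute.zero_left _
  | hadd x y hx hy => rw [map_add]; exact hx.add_left hy
  | hmon v c =>
    rw [map_smul]
    apply Commute.smul_left
    rw [fL_mon]
    show MonoidAlgebra.single v 1 * MonoidAlgebra.single 1 b
      = MonoidAlgebra.single 1 b * MonoidAlgebra.single v 1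
    rw [MonoidAlgebra.single_mul_single, MonoidAlgebra.single_mul_single]
    simp

/-- right embedding -/
noncomputable def gR (K : Type u) [Field K] (n : ℕ) : (FA K n)ᵐᵒᵖ →ₐ[K] MM K n :=
  (MonoidAlgebra.singleOneAlgHom (R := K) (A := FA K n) (M := FreeMonoid (Fin n))).comp
    (AlgHom.opComm (revOp K n))

lemma gR_op (b : FA K n) : gR K n (op b) = MonoidAlgebra.single 1 (unop (revOp K n b)) := rfl

lemma gR_comm (a : FA K n) (b : (FA K n)ᵐᵒᵖ) : Commute (fL K n a) (gR K n b) :=
  fL_comm a _

/-- forward map -/
noncomputable def fwd (K : Type u) [Field K] (n : ℕ) : AA K n →ₐ[K] MM K n :=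
  Algebra.TensorProduct.lift (fL K n) (gR K n) gR_comm

lemma fwd_ll (a : FA K n) : fwd K n (ll K n a) = fL K n a :=
  (Algebra.TensorProduct.lift_tmul (fL K n) (gR K n) gR_comm a 1).trans
    (by rw [map_one, mul_one])

lemma fwd_rr (b : FA K n) :
    fwd K n (rr K n b) = MonoidAlgebra.single 1 (unop (revOp K n b)) :=
  (Algebra.TensorProduct.lift_tmul (fL K n) (gR K n) gR_comm 1 (op b)).trans
    (by rw [map_one, one_mul, gR_op])

/-- backward map -/
noncomputable def bwd (K : Type u) [Field K] (n : ℕ) : MM K n →+* AA K n :=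
  MonoidAlgebra.liftNCRingHom
    (((Algebra.TensorProduct.includeRight (R := K) (A := FA K n)
      (B := (FA K n)ᵐᵒᵖ)).comp (revOp K n)).toRingHom)
    (((ll K n).toRingHom.toMonoidHom).comp (MonoidAlgebra.of K (FreeMonoid (Fin n)))) (by
    intro a w
    show rr K n (unop (revOp K n a)) * ll K n (mon w) = ll K n (mon w) * rr K n (unop (revOp K n a))
    rw [ll_rr_comm])

lemma bwd_single (w : FreeMonoid (Fin n)) (a : FA K n) :
    bwd K n (MonoidAlgebra.single w a) = rr K n (unop (revOp K n a)) * ll K n (mon w) := by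
  rw [bwd, MonoidAlgebra.liftNCRingHom_single]
  rfl

lemma bwd_fL (a : FA K n) : bwd K n (fL K n a) = ll K n a := by
  induction a using FA_induction with
  | h0 => simp
  | hadd x y hx hy => rw [map_add, map_add, hx, hy, map_add]
  | hmon w c =>
    have h1 : (c • mon w : FA K n) = algebraMap K (FA K n) c * mon w := Algebra.smul_def _ _
    rw [h1, map_mul, map_mul, map_mul, fL_mon, bwd_single, map_one, unop_one, rr_one, one_mul]
    congr 1
    rw [AlgHom.commutes, AlgHom.commutes]
    have h2 : algebraMap K (MM K n) c = MonoidAlgebra.single 1 (algebraMap K (FA K n) c) := rfl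
    rw [h2, bwd_single, AlgHom.commutes, mon_one, map_one, mul_one]
    show rr K n (algebraMap K (FA K n) c) = _
    rw [Algebra.algebraMap_eq_smul_one, map_smul, rr_one, Algebra.algebraMap_eq_smul_one]

lemma bwd_fwd (m : AA K n) : bwd K n (fwd K n m) = m := by
  induction m using AA_induction with
  | h0 => simp
  | hadd x y hx hy => rw [map_add, map_add, hx, hy]
  | hpure a b =>
    rw [map_mul, map_mul, fwd_ll, bwd_fL, fwd_rr, bwd_single, revOp_revOp, mon_one, map_one,
      mul_one]

lemma fwd_bwd (m : MM K n) : fwd K n (bwd K n m) = m := by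
  induction m using MonoidAlgebra.induction_linear with
  | zero => simp
  | add x y hx hy => rw [map_add, map_add, hx, hy]
  | single w a =>
    rw [bwd_single, map_mul, fwd_rr, fwd_ll, revOp_revOp, fL_mon,
      MonoidAlgebra.single_mul_single, one_mul, mul_one]

/-- the ring isomorphism -/
noncomputable def isoAM (K : Type u) [Field K] (n : ℕ) : MM K n ≃+* AA K n :=
  RingEquiv.ofRingHom (bwd K n) (fwd K n).toRingHom (RingHom.ext bwd_fwd) (RingHom.ext fwd_bwd)

theorem eProp_AA (K : Type u) [Field K] (n : ℕ) : EProp (AA K n) :=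
  (eProp_free_free K n n).of_ringEquiv (isoAM K n)

end Pool.Agent.H193R3
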