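import Pool.Agent.H193R3.Levitzki

set_option autoImplicit false

/-!
Levitzki's theorem for matrices over a ring embedded in a division ring.
-/

namespace Pool.Agent.H193R3

universe u v w

open Matrix

/-- right multiplication of row vectors by a matrix, a left linear map -/
def vm {D : Type u} [DivisionRing D] {ι : Type v} [Fintype ι] (M : Matrix ι ι D) :
    Module.End D (ι → D) where
  toFun := fun x => x ᵥ* M
  map_add' := fun x y => Matrix.add_vecMul M x y
  map_smul' := fun c x => Matrix.smul_vecMul c x M

lemma vm_apply {D : Type u} [DivisionRing D] {ι : Type v} [Fintype ι] (M : Matrix ι ι D)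
    (x : ι → D) : vm M x = x ᵥ* M := rfl

lemma vm_mul {D : Type u} [DivisionRing D] {ι : Type v} [Fintype ι] (M N : Matrix ι ι D) :
    vm (M * N) = vm N * vm M := by
  apply LinearMap.ext
  intro x
  rw [Module.End.mul_apply, vm_apply, vm_apply, vm_apply, Matrix.vecMul_vecMul]

lemma vm_one {D : Type u} [DivisionRing D] {ι : Type v} [Fintype ι] [DecidableEq ι] :
    vm (1 : Matrix ι ι D) = 1 := by
  apply LinearMap.ext
  intro x
  rw [vm_apply, Matrix.vecMul_one]
  rfl

lemma vm_pow {D : Type u} [DivisionRing D] {ι : Type v} [Fintype ι] [DecidableEq ι]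
    (M : Matrix ι ι D) (k : ℕ) : vm (M ^ k) = vm M ^ k := by
  induction k with
  | zero => rw [pow_zero, pow_zero, vm_one]
  | succ k ih => rw [pow_succ, vm_mul, ih, pow_succ']

lemma vm_injective {D : Type u} [DivisionRing D] {ι : Type v} [Fintype ι] [DecidableEq ι]
    {M : Matrix ι ι D} (h : vm M = 0) : M = 0 := by
  ext i j
  have h1 := congrArg (fun f : Module.End D (ι → D) => f (Pi.single i 1) j) h
  simpa [vm_apply, Matrix.single_vecMul] using h1

lemma vm_list {D : Type u} [DivisionRing D] {ι : Type v} [Fintype ι] [DecidableEq ι]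
    {X : Type w} (T : X → Matrix ι ι D) (l : List X) :
    (l.map (fun j => vm (T j))).prod = vm ((l.reverse.map T).prod) := by
  induction l with
  | nil => simp [vm_one]
  | cons j l ih =>
    rw [List.map_cons, List.prod_cons, ih, List.reverse_cons, List.map_append, List.prod_append,
      vm_mul]
    simp

theorem levitzki_matrix {Λ : Type u} [Ring Λ] {D : Type v} [DivisionRing D] (e : Λ →+* D)
    (he : Function.Injective e) {ι : Type} [Fintype ι] [DecidableEq ι] {X : Type w}
    (T : X → Matrix ι ι Λ) (hnil : ∀ w : List X, w ≠ [] → IsNilpotent (w.map T).prod) :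
    ∀ w : List X, Fintype.card ι ≤ w.length → (w.map T).prod = 0 := by
  intro w hw
  let F : Matrix ι ι Λ →+* Matrix ι ι D := e.mapMatrix
  have hF : Function.Injective F := fun M N h => by
    ext i j
    exact he (congrFun (congrFun h i) j)
  have hwords : ∀ l : List X, (l.map (fun j => F (T j))).prod = F ((l.map T).prod) := by
    intro l
    rw [map_list_prod, List.map_map]
    rfl
  have key := levitzki (D := D) (Fintype.card ι) (ι → D) (fun j => vm (F (T j)))
    (by simp) (by
      intro l hl
      rw [vm_list, hwords]
      obtain ⟨k, hk⟩ := hnil l.reverse (by simpa using hl)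
      refine ⟨k, ?_⟩
      rw [← vm_pow, ← map_pow, hk, map_zero]
      apply LinearMap.ext
      intro x
      rw [vm_apply, Matrix.vecMul_zero]
      rfl) w.reverse (by simpa using hw)
  rw [vm_list, hwords, List.reverse_reverse] at key
  have h2 := vm_injective key
  apply hF
  rw [h2, map_zero]

end Pool.Agent.H193R3
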