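import Mathlib

set_option autoImplicit false

/-!
Levitzki's theorem over a division ring: if all nonempty words in a family of endomorphisms of
a finite-dimensional vector space are nilpotent, then all words of length at least the dimension
vanish.
-/

namespace Pool.Agent.H193R3

universe u v w

lemma coe_pow_of_coe {D : Type u} [DivisionRing D] {V : Type v} [AddCommGroup V] [Module D V]
    {U : Submodule D V} (f : Module.End D V) (f' : Module.End D U)
    (h : ∀ x : U, ((f' x : U) : V) = f x) (k : ℕ) (x : U) : (((f' ^ k) x : U) : V) = (f ^ k) x := by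
  induction k generalizing x with
  | zero => simp
  | succ k ih =>
    rw [pow_succ, pow_succ, Module.End.mul_apply, Module.End.mul_apply, ih, h]

lemma mk_pow_of_mk {D : Type u} [DivisionRing D] {V : Type v} [AddCommGroup V] [Module D V]
    {U : Submodule D V} (f : Module.End D V) (f' : Module.End D (V ⧸ U))
    (h : ∀ x : V, f' (U.mkQ x) = U.mkQ (f x)) (k : ℕ) (x : V) :
    (f' ^ k) (U.mkQ x) = U.mkQ ((f ^ k) x) := by
  induction k generalizing x with
  | zero => simp
  | succ k ih =>
    rw [pow_succ, pow_succ, Module.End.mul_apply, Module.End.mul_apply, h, ih]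

lemma exists_invariant {D : Type u} [DivisionRing D] {X : Type w}
    (V : Type v) [AddCommGroup V] [Module D V] [FiniteDimensional D V]
    (T : X → Module.End D V) (hnt : Nontrivial V)
    (hnil : ∀ w : List X, w ≠ [] → IsNilpotent (w.map T).prod)
    (hne : ∃ j, T j ≠ 0) :
    ∃ U : Submodule D V, U ≠ ⊥ ∧ U ≠ ⊤ ∧ ∀ j, ∀ x ∈ U, T j x ∈ U := by
  classical
  obtain ⟨j0, hj0⟩ := hne
  -- minimal rank word
  have hex : ∃ r : ℕ, ∃ w : List X, w ≠ [] ∧ (w.map T).prod ≠ 0 ∧
      Module.finrank D (LinearMap.range (w.map T).prod) = r :=
    ⟨_, [j0], by simp, by simpa using hj0, rfl⟩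
  obtain ⟨w0, hw0, hT0, hr⟩ := Nat.find_spec hex
  have hmin : ∀ w : List X, w ≠ [] → (w.map T).prod ≠ 0 →
      Nat.find hex ≤ Module.finrank D (LinearMap.range (w.map T).prod) :=
    fun w h1 h2 => Nat.find_min' hex ⟨w, h1, h2, rfl⟩
  set T0 := (w0.map T).prod with hT0def
  have hU : LinearMap.range T0 ≠ ⊥ := by
    rwa [Ne, LinearMap.range_eq_bot]
  have hzero : ∀ v : List X, T0 * (v.map T).prod * T0 = 0 := by
    intro v
    by_contra hcon
    have hword : ((w0 ++ v ++ w0).map T).prod = T0 * (v.map T).prod * T0 := by
      rw [List.map_append, List.map_append, List.prod_append, List.prod_append]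
    have h1 := hmin (w0 ++ v ++ w0) (by simp [hw0]) (by rw [hword]; exact hcon)
    rw [hword, ← hr] at h1
    have hle : LinearMap.range (T0 * (v.map T).prod * T0) ≤ LinearMap.range T0 := by
      rintro _ ⟨x, rfl⟩
      exact ⟨((v.map T).prod * T0) x, by simp [Module.End.mul_apply]⟩
    have heq := Submodule.eq_of_le_of_finrank_le hle h1
    obtain ⟨k, hk⟩ := hnil (w0 ++ v) (by simp [hw0])
    have hword2 : ((w0 ++ v).map T).prod = T0 * (v.map T).prod := by
      simp [List.map_append, List.prod_append, hT0def]
    rw [hword2] at hk
    have hmap : ∀ m : ℕ, Submodule.map ((T0 * (v.map T).prod) ^ m) (LinearMap.range T0)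
        = LinearMap.range T0 := by
      intro m
      induction m with
      | zero => simp [Module.End.one_eq_id]
      | succ m ih =>
        have h2 : Submodule.map (T0 * (v.map T).prod) (LinearMap.range T0)
            = LinearMap.range T0 := by
          conv_rhs => rw [← heq]
          rw [← LinearMap.range_comp]
          rfl
        have h3 : Submodule.map ((T0 * (v.map T).prod) ^ (m + 1)) (LinearMap.range T0)
            = Submodule.map ((T0 * (v.map T).prod) ^ m)
              (Submodule.map (T0 * (v.map T).prod) (LinearMap.range T0)) := by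
          rw [← Submodule.map_comp, pow_succ]
          rfl
        rw [h3, h2, ih]
    have h4 := hmap k
    rw [hk] at h4
    apply hU
    rw [← h4]
    exact Submodule.map_zero _
  let U'' : Submodule D V := ⨆ v : {v : List X // v ≠ []},
    Submodule.map (v.1.map T).prod (LinearMap.range T0)
  by_cases hU'' : U'' = ⊥
  · refine ⟨LinearMap.range T0, hU, ?_, ?_⟩
    · intro htop
      obtain ⟨k, hk⟩ := hnil w0 hw0
      have hmap : ∀ m : ℕ, LinearMap.range (T0 ^ m) = ⊤ := by
        intro m
        induction m with
        | zero => simp [Module.End.one_eq_id, LinearMap.range_id]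
        | succ m ih =>
          have : LinearMap.range (T0 ^ (m + 1)) = Submodule.map (T0 ^ m) (LinearMap.range T0) := by
            rw [← LinearMap.range_comp, pow_succ]
            rfl
          rw [this, htop, Submodule.map_top, ih]
      have h5 := hmap k
      rw [← hT0def] at hk
      rw [hk] at h5
      have h6 : (⊥ : Submodule D V) = ⊤ := by
        rw [← h5]; exact LinearMap.range_zero.symm
      exact bot_ne_top h6
    · intro j x hx
      have h7 : Submodule.map ([j].map T).prod (LinearMap.range T0) ≤ U'' :=
        le_iSup (fun v : {v : List X // v ≠ []} =>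
          Submodule.map (v.1.map T).prod (LinearMap.range T0)) ⟨[j], by simp⟩
      rw [hU''] at h7
      have h8 : T j x ∈ Submodule.map ([j].map T).prod (LinearMap.range T0) :=
        ⟨x, hx, by simp⟩
      have h9 := h7 h8
      rw [Submodule.mem_bot] at h9
      rw [h9]
      exact Submodule.zero_mem _
  · refine ⟨U'', hU'', ?_, ?_⟩
    · intro htop
      have hker : U'' ≤ LinearMap.ker T0 := by
        refine iSup_le ?_
        rintro ⟨v, hv⟩
        rintro _ ⟨_, ⟨x, rfl⟩, rfl⟩
        rw [LinearMap.mem_ker]
        have := congrArg (fun f : Module.End D V => f x) (hzero v)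
        simpa [Module.End.mul_apply] using this
      rw [htop] at hker
      apply hT0
      ext x
      have : x ∈ LinearMap.ker T0 := hker Submodule.mem_top
      simpa using this
    · intro j x hx
      have hmap : Submodule.map (T j) U'' ≤ U'' := by
        rw [Submodule.map_iSup]
        refine iSup_le ?_
        rintro ⟨v, hv⟩
        have h10 : Submodule.map (T j) (Submodule.map (v.map T).prod (LinearMap.range T0))
            = Submodule.map ((j :: v).map T).prod (LinearMap.range T0) := by
          rw [← Submodule.map_comp, List.map_cons, List.prod_cons]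
          rfl
        rw [h10]
        exact le_iSup (fun v : {v : List X // v ≠ []} =>
          Submodule.map (v.1.map T).prod (LinearMap.range T0)) ⟨j :: v, by simp⟩
      exact hmap ⟨x, hx, rfl⟩

theorem levitzki {D : Type u} [DivisionRing D] {X : Type w} (s : ℕ) :
    ∀ (V : Type v) [AddCommGroup V] [Module D V] [FiniteDimensional D V]
      (T : X → Module.End D V), Module.finrank D V ≤ s →
      (∀ w : List X, w ≠ [] → IsNilpotent (w.map T).prod) →
      ∀ w : List X, s ≤ w.length → (w.map T).prod = 0 := by
  induction s using Nat.strong_induction_on with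
  | _ s IH =>
  intro V _ _ _ T hs hnil w hw
  classical
  rcases subsingleton_or_nontrivial V with hsub | hnt
  · ext x; exact Subsingleton.elim _ _
  have hpos : 0 < Module.finrank D V := Module.finrank_pos
  by_cases hne : ∃ j, T j ≠ 0
  · obtain ⟨U, hUb, hUt, hinv⟩ := exists_invariant V T hnt hnil hne
    -- restricted maps
    let T' : X → Module.End D U := fun j => (T j).restrict (hinv j)
    let T'' : X → Module.End D (V ⧸ U) := fun j => U.mapQ U (T j) (fun x hx => hinv j x hx)
    have hT' : ∀ (v : List X) (x : U), (((v.map T').prod x : U) : V) = (v.map T).prod x := by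
      intro v
      induction v with
      | nil => intro x; simp
      | cons j v ih =>
        intro x
        simp only [List.map_cons, List.prod_cons, Module.End.mul_apply]
        rw [← ih]
        rfl
    have hT'' : ∀ (v : List X) (x : V),
        (v.map T'').prod (U.mkQ x) = U.mkQ ((v.map T).prod x) := by
      intro v
      induction v with
      | nil => intro x; simp
      | cons j v ih =>
        intro x
        simp only [List.map_cons, List.prod_cons, Module.End.mul_apply]
        rw [ih]
        rfl
    have hnil' : ∀ v : List X, v ≠ [] → IsNilpotent (v.map T').prod := by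
      intro v hv
      obtain ⟨k, hk⟩ := hnil v hv
      refine ⟨k, ?_⟩
      ext x
      rw [coe_pow_of_coe _ _ (hT' v), hk]
      simp
    have hnil'' : ∀ v : List X, v ≠ [] → IsNilpotent (v.map T'').prod := by
      intro v hv
      obtain ⟨k, hk⟩ := hnil v hv
      refine ⟨k, ?_⟩
      apply LinearMap.ext
      intro y
      obtain ⟨x, rfl⟩ := Submodule.mkQ_surjective U y
      rw [mk_pow_of_mk _ _ (hT'' v), hk]
      simp
    have hsum : Module.finrank D (V ⧸ U) + Module.finrank D U = Module.finrank D V :=
      Submodule.finrank_quotient_add_finrank U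
    have ha : Module.finrank D U < Module.finrank D V := Submodule.finrank_lt hUt
    have ha0 : 0 < Module.finrank D U := by
      rcases Nat.eq_zero_or_pos (Module.finrank D U) with h0 | h0
      · exact absurd (Submodule.finrank_eq_zero.mp h0) hUb
      · exact h0
    have hb : Module.finrank D (V ⧸ U) < Module.finrank D V := by omega
    have r1 := IH (Module.finrank D U) (by omega) U T' le_rfl hnil'
    have r2 := IH (Module.finrank D (V ⧸ U)) (by omega) (V ⧸ U) T'' le_rfl hnil''
    set b := Module.finrank D (V ⧸ U) with hbdef
    have hsplit : w = w.take (w.length - b) ++ w.drop (w.length - b) :=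
      (List.take_append_drop _ _).symm
    rw [hsplit, List.map_append, List.prod_append]
    ext x
    rw [Module.End.mul_apply]
    have h1 : ((w.drop (w.length - b)).map T).prod x ∈ U := by
      have h2 := r2 (w.drop (w.length - b)) (by rw [List.length_drop]; omega)
      have h3 := hT'' (w.drop (w.length - b)) x
      rw [h2] at h3
      have h4 : U.mkQ (((w.drop (w.length - b)).map T).prod x) = 0 := by
        rw [← h3]; rfl
      simpa using h4
    have h5 := hT' (w.take (w.length - b)) ⟨_, h1⟩
    rw [r1 (w.take (w.length - b)) (by rw [List.length_take]; omega)] at h5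
    simpa using h5.symm
  · push Not at hne
    cases w with
    | nil => simp at hw; omega
    | cons j w => simp [hne j]

end Pool.Agent.H193R3
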