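import Pool.Agent.H193R3.Trans

set_option autoImplicit false

/-!
An endomorphism of the free algebra approximable by automorphisms is surjective.
-/

namespace Pool.Agent.H193R3

universe u

open scoped TensorProduct
open MulOpposite Polynomial

variable {K : Type u} [Field K] {n : ℕ}

/-- the augmentation -/
noncomputable def eps (K : Type u) [Field K] (n : ℕ) : FA K n →ₐ[K] K :=
  MonoidAlgebra.lift K K (FreeMonoid (Fin n)) (FreeMonoid.lift (fun _ => 0))

lemma eps_gx (j : Fin n) : eps K n (gx j) = 0 := by
  rw [eps, gx, MonoidAlgebra.lift_single, FreeMonoid.lift_eval_of, smul_zero]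

lemma eps_eq (a : FA K n) : eps K n a = a.coeff 1 := by
  induction a using FA_induction with
  | h0 => simp
  | hadd x y hx hy => rw [map_add, hx, hy, MonoidAlgebra.coeff_add, Finsupp.add_apply]
  | hmon w c =>
    rw [map_smul, MonoidAlgebra.coeff_smul, Finsupp.smul_apply]
    congr 1
    induction w using FreeMonoid.casesOn with
    | one => rw [mon_one, map_one]; simp
    | of_mul i w =>
      rw [mon_mul, map_mul, mon_of, eps_gx, zero_mul, ← mon_of, ← mon_mul, mon,
        MonoidAlgebra.coeff_single, Finsupp.single_eq_of_ne]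
      exact (of_mul_ne_one i w).symm

lemma ordGE_one_iff (a : FA K n) : OrdGE 1 a ↔ eps K n a = 0 := by
  rw [eps_eq]
  constructor
  · intro h; exact h 1 (by simp)
  · intro h w hw
    have : w.length = 0 := by omega
    rw [FreeMonoid.length_eq_zero.mp this]
    exact h

/-- `ε ⊗ id` -/
noncomputable def eta (K : Type u) [Field K] (n : ℕ) : AA K n →ₗ[K] FA K n :=
  TensorProduct.lift ((LinearMap.lsmul K (FA K n)).compl₁₂ (eps K n).toLinearMap
    (MulOpposite.opLinearEquiv K).symm.toLinearMap)

lemma eta_pure (a b : FA K n) : eta K n (ll K n a * rr K n b) = eps K n a • b := by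
  rw [ll_mul_rr, eta, TensorProduct.lift.tmul]
  rfl

lemma eta_rr (b : FA K n) : eta K n (rr K n b) = b := by
  have := eta_pure (1 : FA K n) b
  rwa [map_one, one_mul, map_one, one_smul] at this

lemma eta_ll (a : FA K n) : eta K n (ll K n a) = eps K n a • (1 : FA K n) := by
  have := eta_pure a (1 : FA K n)
  rwa [rr_one, mul_one] at this

lemma eta_mul_rr (m : AA K n) (f : FA K n) : eta K n (m * rr K n f) = f * eta K n m := by
  induction m using AA_induction with
  | h0 => simp
  | hadd x y hx hy => rw [add_mul, map_add, hx, hy, map_add, mul_add]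
  | hpure a b => rw [mul_assoc, ← rr_mul, eta_pure, eta_pure, mul_smul_comm]

lemma eta_mul_ll (m : AA K n) (f : FA K n) :
    eta K n (m * ll K n f) = eps K n f • eta K n m := by
  induction m using AA_induction with
  | h0 => simp
  | hadd x y hx hy => rw [add_mul, map_add, hx, hy, map_add, smul_add]
  | hpure a b =>
    rw [mul_assoc, ← ll_rr_comm, ← mul_assoc, ← map_mul, eta_pure, eta_pure, map_mul,
      smul_smul, mul_comm]

lemma eta_ll_mul (m : AA K n) (f : FA K n) :
    eta K n (ll K n f * m) = eps K n f • eta K n m := by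
  induction m using AA_induction with
  | h0 => simp
  | hadd x y hx hy => rw [mul_add, map_add, hx, hy, map_add, smul_add]
  | hpure a b =>
    rw [← mul_assoc, ← map_mul, eta_pure, eta_pure, map_mul, smul_smul]

/-- `ℓ` on the right factor -/
noncomputable def piR (ℓ : FA K n →ₗ[K] K) : AA K n →ₗ[K] FA K n :=
  TensorProduct.lift (((LinearMap.lsmul K (FA K n)).flip).compl₁₂ LinearMap.id
    (ℓ ∘ₗ (MulOpposite.opLinearEquiv K).symm.toLinearMap))

lemma piR_pure (ℓ : FA K n →ₗ[K] K) (a b : FA K n) :
    piR ℓ (ll K n a * rr K n b) = ℓ b • a := by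
  rw [ll_mul_rr, piR, TensorProduct.lift.tmul]
  rfl

lemma piR_rr (ℓ : FA K n →ₗ[K] K) (b : FA K n) : piR ℓ (rr K n b) = ℓ b • (1 : FA K n) := by
  have := piR_pure ℓ (1 : FA K n) b
  rwa [map_one, one_mul] at this

lemma piR_ll_mul (ℓ : FA K n →ₗ[K] K) (m : AA K n) (f : FA K n) :
    piR ℓ (ll K n f * m) = f * piR ℓ m := by
  induction m using AA_induction with
  | h0 => simp
  | hadd x y hx hy => rw [mul_add, map_add, hx, hy, map_add, mul_add]
  | hpure a b =>
    rw [← mul_assoc, ← map_mul, piR_pure, piR_pure, mul_smul_comm]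

/-- `λ ⊗ id` -/
noncomputable def lamT (lam : FA K n →ₗ[K] FA K n) : AA K n →ₗ[K] AA K n :=
  TensorProduct.map lam LinearMap.id

lemma lamT_pure (lam : FA K n →ₗ[K] FA K n) (a b : FA K n) :
    lamT lam (ll K n a * rr K n b) = ll K n (lam a) * rr K n b := by
  rw [ll_mul_rr, ll_mul_rr, lamT, TensorProduct.map_tmul]
  rfl

lemma lamT_ll_mul (lam : FA K n →ₗ[K] FA K n) (f : FA K n) (c : K)
    (hf : ∀ a, lam (f * a) = c • a) (m : AA K n) :
    lamT lam (ll K n f * m) = c • m := by
  induction m using AA_induction with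
  | h0 => simp
  | hadd x y hx hy => rw [mul_add, map_add, hx, hy, smul_add]
  | hpure a b =>
    rw [← mul_assoc, ← map_mul, lamT_pure, hf, map_smul, smul_mul_assoc]

lemma lamT_rr (lam : FA K n →ₗ[K] FA K n) (h1 : lam 1 = 0) (b : FA K n) :
    lamT lam (rr K n b) = 0 := by
  have := lamT_pure lam (1 : FA K n) b
  rw [map_one, one_mul, h1, map_zero, zero_mul] at this
  exact this

/-- elements of degree at most `D` -/
noncomputable def degA (K : Type u) [Field K] (n D : ℕ) : Submodule K (FA K n) :=
  MonoidAlgebra.supported K K {w : FreeMonoid (Fin n) | w.length ≤ D}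

lemma mem_degA {D : ℕ} {a : FA K n} :
    a ∈ degA K n D ↔ ∀ w : FreeMonoid (Fin n), D < w.length → a.coeff w = 0 := by
  rw [degA, MonoidAlgebra.mem_supported']
  simp only [Set.mem_ofPred_eq, not_le]

lemma degA_mono {D D' : ℕ} (h : D ≤ D') : degA K n D ≤ degA K n D' := by
  intro a ha
  rw [mem_degA] at ha ⊢
  intro w hw
  exact ha w (by omega)

lemma exists_degA (a : FA K n) : ∃ D, a ∈ degA K n D := by
  obtain ⟨d, hd⟩ := exists_degLE a
  exact ⟨d, mem_degA.mpr hd⟩

instance finDegA (K : Type u) [Field K] (n D : ℕ) : FiniteDimensional K (degA K n D) := by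
  have hfin : Finite {w : FreeMonoid (Fin n) | w.length ≤ D} :=
    (List.finite_length_le (Fin n) D).to_subtype
  exact Module.Finite.equiv
    (MonoidAlgebra.supportedEquivFinsupp (R := K) (S := K)
      {w : FreeMonoid (Fin n) | w.length ≤ D}).symm

/-- right degree at most `D` in the enveloping algebra -/
noncomputable def degAA (K : Type u) [Field K] (n D : ℕ) : Submodule K (AA K n) :=
  Submodule.span K {m | ∃ a b : FA K n, b ∈ degA K n D ∧ m = ll K n a * rr K n b}

lemma degAA_mono {D D' : ℕ} (h : D ≤ D') : degAA K n D ≤ degAA K n D' := by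
  apply Submodule.span_mono
  rintro m ⟨a, b, hb, rfl⟩
  exact ⟨a, b, degA_mono h hb, rfl⟩

lemma exists_degAA (m : AA K n) : ∃ D, m ∈ degAA K n D := by
  induction m using AA_induction with
  | h0 => exact ⟨0, Submodule.zero_mem _⟩
  | hadd x y hx hy =>
    obtain ⟨D, hD⟩ := hx
    obtain ⟨E, hE⟩ := hy
    exact ⟨max D E, Submodule.add_mem _ (degAA_mono (le_max_left _ _) hD)
      (degAA_mono (le_max_right _ _) hE)⟩
  | hpure a b =>
    obtain ⟨D, hD⟩ := exists_degA b
    exact ⟨D, Submodule.subset_span ⟨a, b, hD, rfl⟩⟩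

lemma lamT_mem (lam : FA K n →ₗ[K] FA K n) {D : ℕ} {m : AA K n} (hm : m ∈ degAA K n D) :
    lamT lam m ∈ degAA K n D := by
  induction hm using Submodule.span_induction with
  | mem x h =>
    obtain ⟨a, b, hb, rfl⟩ := h
    rw [lamT_pure]
    exact Submodule.subset_span ⟨_, b, hb, rfl⟩
  | zero => rw [map_zero]; exact Submodule.zero_mem _
  | add x y _ _ hx hy => rw [map_add]; exact Submodule.add_mem _ hx hy
  | smul c x _ hx => rw [map_smul]; exact Submodule.smul_mem _ _ hx

lemma eta_mem {D : ℕ} {m : AA K n} (hm : m ∈ degAA K n D) : eta K n m ∈ degA K n D := by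
  induction hm using Submodule.span_induction with
  | mem x h =>
    obtain ⟨a, b, hb, rfl⟩ := h
    rw [eta_pure]
    exact Submodule.smul_mem _ _ hb
  | zero => rw [map_zero]; exact Submodule.zero_mem _
  | add x y _ _ hx hy => rw [map_add]; exact Submodule.add_mem _ hx hy
  | smul c x _ hx => rw [map_smul]; exact Submodule.smul_mem _ _ hx

lemma bd_sigA (a : FA K n) : ∃ d, ∀ p : Fin n → K, (sigA K n (tr p a)).natDegree ≤ d := by
  induction a using FA_induction with
  | h0 => exact ⟨0, fun p => by simp⟩
  | hadd x y hx hy =>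
    obtain ⟨d, hd⟩ := hx
    obtain ⟨e, he⟩ := hy
    refine ⟨max d e, fun p => ?_⟩
    rw [map_add, map_add]
    exact (natDegree_add_le _ _).trans (max_le_max (hd p) (he p))
  | hmon w c =>
    refine ⟨w.length, fun p => ?_⟩
    rw [map_smul, map_smul]
    refine (natDegree_smul_le _ _).trans ?_
    induction w using FreeMonoid.inductionOn' with
    | one => rw [mon_one, map_one, map_one, natDegree_one]; exact Nat.zero_le _
    | of_mul i w ih =>
      rw [mon_mul, map_mul, map_mul, FreeMonoid.length_mul, FreeMonoid.length_of]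
      refine natDegree_mul_le.trans (Nat.add_le_add ?_ ih)
      rw [mon_of, tr_gx, map_add, map_smul, map_one, ← mon_of, sigA_mon, FreeMonoid.length_of]
      refine (natDegree_add_le _ _).trans (max_le ?_ ?_)
      · exact natDegree_C_mul_X_pow_le _ _
      · refine (natDegree_smul_le _ _).trans ?_
        rw [natDegree_one]; exact Nat.zero_le _

section main

variable (φ : FA K n →ₐ[K] FA K n) (N : Matrix (Fin n) (Fin n) (AA K n))

/-- derivative with respect to `f_k = φ(x_k)` -/
noncomputable def df (k : Fin n) : FA K n →ₗ[K] AA K n :=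
  ∑ i, (LinearMap.mulRight K (N i k)) ∘ₗ (dd i)

lemma df_apply (k : Fin n) (h : FA K n) : df N k h = ∑ i, dd i h * N i k := by
  simp [df]

lemma df_expand (hN : N * Jac φ = 1) (h : FA K n) :
    delta h = ∑ k, df N k h * delta (φ (gx k)) := by
  have h1 : ∀ i, (delta (gx i) : AA K n) = ∑ k, N i k * delta (φ (gx k)) := by
    intro i
    simp only [delta_Jac, Finset.mul_sum]
    rw [Finset.sum_comm]
    have h2 : ∀ j, ∑ k, N i k * (Jac φ k j * delta (gx j))
        = (N * Jac φ) i j * delta (gx j) := by
      intro j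
      rw [Matrix.mul_apply, Finset.sum_mul]
      apply Finset.sum_congr rfl
      intro k _
      rw [mul_assoc]
    simp only [h2, hN]
    simp [Matrix.one_apply]
  rw [delta_expand]
  simp only [df_apply, Finset.sum_mul]
  rw [Finset.sum_comm]
  apply Finset.sum_congr rfl
  intro i _
  rw [h1 i, Finset.mul_sum]
  apply Finset.sum_congr rfl
  intro k _
  rw [mul_assoc]

lemma df_mul (k : Fin n) (a b : FA K n) :
    df N k (a * b) = ll K n a * df N k b + rr K n b * df N k a := by
  rw [df_apply, df_apply, df_apply, Finset.mul_sum, Finset.mul_sum, ← Finset.sum_add_distrib]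
  apply Finset.sum_congr rfl
  intro i _
  rw [dd_mul, add_mul, mul_assoc, mul_assoc]

lemma df_one (k : Fin n) : df N k 1 = 0 := by
  rw [df_apply]
  simp [dd_one]

lemma df_f (hN : Jac φ * N = 1) (k j : Fin n) :
    df N k (φ (gx j)) = if j = k then 1 else 0 := by
  have h1 : df N k (φ (gx j)) = (Jac φ * N) j k := by
    rw [df_apply, Matrix.mul_apply]
    rfl
  rw [h1, hN, Matrix.one_apply]

/-- the left translation with respect to `f` -/
noncomputable def lam (k : Fin n) : FA K n →ₗ[K] FA K n := eta K n ∘ₗ df N k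

lemma lam_apply (k : Fin n) (h : FA K n) : lam N k h = eta K n (df N k h) := rfl

lemma lam_one (k : Fin n) : lam N k 1 = 0 := by
  rw [lam_apply, df_one, map_zero]

lemma lam_expand (hφ : ∀ i, eps K n (φ (gx i)) = 0) (hN : N * Jac φ = 1) (h : FA K n) :
    h = eps K n h • (1 : FA K n) + ∑ k, φ (gx k) * lam N k h := by
  have h1 := congrArg (eta K n) (df_expand φ N hN h)
  rw [delta_apply, map_sub, eta_ll, eta_rr, map_sum] at h1
  have h2 : ∀ k, eta K n (df N k h * delta (φ (gx k))) = -(φ (gx k) * lam N k h) := by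
    intro k
    rw [delta_apply, mul_sub, map_sub, eta_mul_ll, eta_mul_rr, hφ, zero_smul, zero_sub]
    rfl
  simp only [h2, Finset.sum_neg_distrib] at h1
  rw [sub_eq_iff_eq_add] at h1
  rw [h1]
  abel

lemma lam_f_mul (hφ : ∀ i, eps K n (φ (gx i)) = 0) (hN : Jac φ * N = 1) (k j : Fin n)
    (a : FA K n) : lam N k (φ (gx j) * a) = (if j = k then (1 : K) else 0) • a := by
  rw [lam_apply, df_mul, map_add, eta_ll_mul, hφ, zero_smul, zero_add, df_f φ N hN]
  split_ifs
  · rw [mul_one, eta_rr, one_smul]
  · rw [mul_zero, map_zero, zero_smul]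

lemma df_lam (hφ : ∀ i, eps K n (φ (gx i)) = 0) (hN : N * Jac φ = 1) (hN' : Jac φ * N = 1)
    (j k : Fin n) (h : FA K n) : df N j (lam N k h) = lamT (lam N k) (df N j h) := by
  conv_rhs => rw [lam_expand φ N hφ hN h]
  rw [map_add, map_smul, df_one, smul_zero, zero_add, map_sum, map_sum]
  have h1 : ∀ i, lamT (lam N k) (df N j (φ (gx i) * lam N i h))
      = if i = k then df N j (lam N i h) else 0 := by
    intro i
    rw [df_mul, map_add, lamT_ll_mul (lam N k) _ _ (lam_f_mul φ N hφ hN' k i), df_f φ N hN']
    have h2 : lamT (lam N k) (rr K n (lam N i h) * if i = j then 1 else 0) = 0 := by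
      split_ifs
      · rw [mul_one, lamT_rr _ (lam_one N k)]
      · rw [mul_zero, map_zero]
    rw [h2, add_zero]
    split_ifs
    · rw [one_smul]
    · rw [zero_smul]
  simp only [h1]
  simp

/-- the finite-dimensional stable space -/
noncomputable def WW (D D' : ℕ) : Submodule K (FA K n) :=
  degA K n D' ⊓ ⨅ j, (degAA K n D).comap (df N j)

lemma mem_WW {D D' : ℕ} {h : FA K n} :
    h ∈ WW N D D' ↔ h ∈ degA K n D' ∧ ∀ j, df N j h ∈ degAA K n D := by
  simp [WW, Submodule.mem_iInf]

lemma WW_stable (hφ : ∀ i, eps K n (φ (gx i)) = 0) (hN : N * Jac φ = 1) (hN' : Jac φ * N = 1)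
    {D D' : ℕ} (hD : D ≤ D') {h : FA K n} (hh : h ∈ WW N D D') (k : Fin n) :
    lam N k h ∈ WW N D D' := by
  rw [mem_WW] at hh ⊢
  refine ⟨degA_mono hD (eta_mem (hh.2 k)), fun j => ?_⟩
  rw [df_lam φ N hφ hN hN']
  exact lamT_mem _ (hh.2 j)

theorem surj_of_approx (hφ0 : ∀ i, eps K n (φ (gx i)) = 0) (happ : Approx' φ) :
    Function.Surjective φ := by
  classical
  -- Jacobian invertible
  have hJ : IsUnit (Jac φ) := eProp_AA K n (Fin n) (Jac φ) (Jac_allUnits' φ happ)
  obtain ⟨N, hJN, hNJ⟩ := isUnit_iff_exists.mp hJ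
  -- degree bound of `N`
  choose Db hDb using fun i j => exists_degAA (N i j)
  let D : ℕ := ∑ i, ∑ j, Db i j
  have hND : ∀ i j, N i j ∈ degAA K n D := by
    intro i j
    apply degAA_mono _ (hDb i j)
    have h1 : Db i j ≤ ∑ j, Db i j :=
      Finset.single_le_sum (f := fun j => Db i j) (fun _ _ => Nat.zero_le _) (Finset.mem_univ j)
    have h2 : ∑ j, Db i j ≤ ∑ i, ∑ j, Db i j :=
      Finset.single_le_sum (f := fun i => ∑ j, Db i j) (fun _ _ => Nat.zero_le _)
        (Finset.mem_univ i)
    exact h1.trans h2
  let W : Submodule K (FA K n) := WW N D (D + 1)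
  have hWfin : FiniteDimensional K W :=
    Submodule.finiteDimensional_of_le (S₂ := degA K n (D + 1)) inf_le_left
  have hgx : ∀ i, (gx i : FA K n) ∈ W := by
    intro i
    show gx i ∈ WW N D (D + 1)
    rw [mem_WW]
    constructor
    · rw [mem_degA]
      intro w hw
      rw [gx, MonoidAlgebra.coeff_single, Finsupp.single_eq_of_ne]
      rintro rfl
      rw [FreeMonoid.length_of] at hw
      omega
    · intro j
      rw [df_apply, Finset.sum_eq_single i]
      · rw [dd_gx, if_pos rfl, one_mul]; exact hND i j
      · intro l _ hl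
        rw [dd_gx, if_neg (Ne.symm hl), zero_mul]
      · simp
  have hstab : ∀ k, ∀ h ∈ W, lam N k h ∈ W := fun k h hh =>
    WW_stable φ N hφ0 hNJ hJN (by omega) hh k
  -- basis
  let b := Module.finBasis K W
  let s := Module.finrank K W
  let wv : Fin s → FA K n := fun a => (b a : FA K n)
  let T : Fin n → Matrix (Fin s) (Fin s) K := fun k =>
    Matrix.of fun a c => b.repr ⟨lam N k (wv a), hstab k _ (b a).2⟩ c
  have hT : ∀ k a, lam N k (wv a) = ∑ c, T k a c • wv c := by
    intro k a
    have h1 := b.sum_repr ⟨lam N k (wv a), hstab k _ (b a).2⟩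
    have h2 := congrArg Subtype.val h1
    simp only [Submodule.coe_sum, Submodule.coe_smul] at h2
    exact h2.symm
  -- dual functionals
  have hdual : ∀ c, ∃ ℓ : FA K n →ₗ[K] K, ∀ a, ℓ (wv a) = if a = c then 1 else 0 := by
    intro c
    obtain ⟨g, hg⟩ := LinearMap.exists_extend (b.coord c)
    refine ⟨g, fun a => ?_⟩
    have h1 := congrArg (fun f : W →ₗ[K] K => f (b a)) hg
    simp only [LinearMap.comp_apply, Submodule.subtype_apply] at h1
    rw [show g (wv a) = g ((b a : W) : FA K n) from rfl, h1, Module.Basis.coord_apply,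
      Module.Basis.repr_self, Finsupp.single_apply]
  choose ℓ hℓ using hdual
  let f : Fin n → FA K n := fun k => φ (gx k)
  -- expansion of the basis
  have hexp : ∀ a, wv a = eps K n (wv a) • (1 : FA K n)
      + ∑ k, f k * ∑ c, T k a c • wv c := by
    intro a
    conv_lhs => rw [lam_expand φ N hφ0 hNJ (wv a)]
    congr 1
    apply Finset.sum_congr rfl
    intro k _
    rw [hT]
  -- the matrix P(f)
  let Pf : Matrix (Fin s) (Fin s) (FA K n) := 1 - ∑ k, (T k).map (fun t => t • f k)
  let al : Fin n → Matrix (Fin s) (Fin s) (FA K n) := fun j =>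
    Matrix.of fun c b' => piR (ℓ b') (df N j (wv c))
  have hPf : ∀ a c, Pf a c = (1 : Matrix (Fin s) (Fin s) (FA K n)) a c
      - ∑ k, T k a c • f k := by
    intro a c
    simp [Pf, Matrix.sum_apply]
  have hC2 : ∀ j a, df N j (wv a) = ∑ k, ∑ c, T k a c • (ll K n (f k) * df N j (wv c))
      + ∑ c, T j a c • rr K n (wv c) := by
    intro j a
    conv_lhs => rw [hexp a]
    rw [map_add, map_smul, df_one, smul_zero, zero_add, map_sum]
    have h1 : ∀ k, df N j (f k * ∑ c, T k a c • wv c)
        = ∑ c, T k a c • (ll K n (f k) * df N j (wv c))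
          + if k = j then ∑ c, T k a c • rr K n (wv c) else 0 := by
      intro k
      rw [df_mul, df_f φ N hJN]
      congr 1
      · simp only [map_sum, map_smul, Finset.mul_sum, mul_smul_comm]
      · split_ifs
        · rw [mul_one]; simp only [map_sum, map_smul]
        · rw [mul_zero]
    simp only [h1, Finset.sum_add_distrib]
    congr 1
    simp
  have hPal : ∀ j, Pf * al j = (T j).map (algebraMap K (FA K n)) := by
    intro j
    refine Matrix.ext fun a b' => ?_
    rw [Matrix.mul_apply, Matrix.map_apply]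
    have h1 := congrArg (piR (ℓ b')) (hC2 j a)
    rw [map_add, map_sum, map_sum] at h1
    simp only [map_sum, map_smul, piR_ll_mul, piR_rr, hℓ] at h1
    simp only [hPf, sub_mul, Finset.sum_sub_distrib]
    have h2 : ∑ c, (1 : Matrix (Fin s) (Fin s) (FA K n)) a c * al j c b' = al j a b' := by
      simp [Matrix.one_apply]
    rw [h2]
    have h3 : al j a b' = piR (ℓ b') (df N j (wv a)) := rfl
    rw [h3, h1]
    have h4 : ∑ c, (∑ k, T k a c • f k) * al j c b'
        = ∑ k, ∑ c, T k a c • (f k * piR (ℓ b') (df N j (wv c))) := by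
      rw [Finset.sum_comm]
      apply Finset.sum_congr rfl
      intro c _
      rw [Finset.sum_mul]
      apply Finset.sum_congr rfl
      intro k _
      rw [smul_mul_assoc]
      rfl
    rw [h4, add_sub_cancel_left]
    simp [Algebra.algebraMap_eq_smul_one]
  let Th : Matrix (Fin s) (Fin s) (FA K n) := 1 + ∑ j, (al j).map (fun t => t * f j)
  have hPTh : Pf * Th = 1 := by
    have h1 : ∀ j, Pf * (al j).map (fun t => t * f j) = (T j).map (fun t => t • f j) := by
      intro j
      refine Matrix.ext fun a b' => ?_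
      have h2 := congrFun (congrFun (hPal j) a) b'
      rw [Matrix.mul_apply, Matrix.map_apply] at h2
      rw [Matrix.mul_apply, Matrix.map_apply]
      simp only [Matrix.map_apply, ← mul_assoc]
      rw [← Finset.sum_mul, h2, Algebra.algebraMap_eq_smul_one, smul_mul_assoc, one_mul]
    show Pf * (1 + ∑ j, (al j).map (fun t => t * f j)) = 1
    rw [mul_add, mul_one, Finset.mul_sum, Finset.sum_congr rfl (fun j _ => h1 j)]
    show (1 - ∑ k, (T k).map (fun t => t • f k)) + _ = 1
    rw [sub_add_cancel]
  -- all evaluations of the pencil are invertible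
  have hall : AllUnits (pencil T) := by
    intro κ _ _ R _ _ ev
    choose db hdb using fun a b => bd_sigA (pencil T a b)
    let d : ℕ := ∑ a, ∑ b, db a b
    have hdle : ∀ a b, db a b ≤ d := by
      intro a b
      have h1 : db a b ≤ ∑ b, db a b :=
        Finset.single_le_sum (f := fun b => db a b) (fun _ _ => Nat.zero_le _) (Finset.mem_univ b)
      have h2 : ∑ b, db a b ≤ ∑ a, ∑ b, db a b :=
        Finset.single_le_sum (f := fun a => ∑ b, db a b) (fun _ _ => Nat.zero_le _)
          (Finset.mem_univ a)
      exact h1.trans h2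
    set m := Fintype.card (Fin s) * Fintype.card κ * d + 1 with hm
    obtain ⟨p, α, hα⟩ := happ m
    let p' : Fin n → K := fun j => -p j
    have hpp : ∀ j, p j + p' j = 0 := fun j => by simp [p']
    have hpp' : ∀ j, p' j + p j = 0 := fun j => by simp [p']
    let q : Fin n → K := fun j => eps K n (tr p (α (gx j)))
    let q' : Fin n → K := fun j => -q j
    have hqq' : ∀ j, q' j + q j = 0 := fun j => by simp [q']
    have hα1 : (eps K n).comp (tr q)
        = ((eps K n).comp (tr p)).comp (α : FA K n →ₐ[K] FA K n) := by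
      apply FA_hom_ext
      intro i
      show eps K n (tr q (gx i)) = eps K n (tr p (α (gx i)))
      rw [tr_gx, map_add, eps_gx, map_smul, map_one, zero_add, smul_eq_mul, mul_one]
    let β : FA K n →ₐ[K] FA K n :=
      ((tr q).comp (α.symm : FA K n →ₐ[K] FA K n)).comp (tr p')
    have hβ : ∀ i, OrdGE 1 (β (gx i)) := by
      intro i
      rw [ordGE_one_iff]
      have h1 := congrArg (fun g : FA K n →ₐ[K] K => g (α.symm (tr p' (gx i)))) hα1
      simp only [AlgHom.comp_apply] at h1
      have h2 : (α : FA K n →ₐ[K] FA K n) (α.symm (tr p' (gx i))) = tr p' (gx i) :=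
        α.apply_symm_apply _
      rw [h2, tr_tr p p' hpp, eps_gx] at h1
      exact h1
    have h0 : ((ev.comp (tr q').toRingHom).mapMatrix ((tr q).toRingHom.mapMatrix (pencil T)))
        = ev.mapMatrix (pencil T) := by
      refine Matrix.ext fun a b => ?_
      show ev (tr q' (tr q (pencil T a b))) = ev (pencil T a b)
      rw [tr_tr q' q hqq']
    rw [← h0]
    apply closure_unit (sigA K n).toRingHom sigA_eval (ev.comp (tr q').toRingHom)
      ((tr q).toRingHom.mapMatrix (pencil T))
      (((tr q).comp (α.symm : FA K n →ₐ[K] FA K n)).toRingHom.mapMatrix Pf)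
      (((tr q).comp (α.symm : FA K n →ₐ[K] FA K n)).toRingHom.mapMatrix Th) d m
      (fun a b k hk => coeff_eq_zero_of_natDegree_lt
        (lt_of_le_of_lt ((hdb a b q).trans (hdle a b)) hk)) (by omega)
      (Or.inl (by rw [← map_mul, hPTh, map_one]))
    intro a c k hk
    have h1 : (tr q).toRingHom.mapMatrix (pencil T) a c
        - ((tr q).comp (α.symm : FA K n →ₐ[K] FA K n)).toRingHom.mapMatrix Pf a c
        = ∑ k, T k a c • β (tr p (f k - α (gx k))) := by
      have h2 : (tr q).toRingHom.mapMatrix (pencil T) a c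
          = (1 : Matrix (Fin s) (Fin s) (FA K n)) a c - ∑ k, T k a c • tr q (gx k) := by
        show tr q (pencil T a c) = _
        rw [pencil, Matrix.sub_apply, Matrix.sum_apply, map_sub, map_sum]
        congr 1
        · rw [Matrix.one_apply]
          split_ifs <;> simp
        · apply Finset.sum_congr rfl
          intro k _
          rw [Matrix.map_apply, single_eq, mon_of, map_smul]
      have h3 : ((tr q).comp (α.symm : FA K n →ₐ[K] FA K n)).toRingHom.mapMatrix Pf a c
          = (1 : Matrix (Fin s) (Fin s) (FA K n)) a c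
            - ∑ k, T k a c • tr q (α.symm (f k)) := by
        show ((tr q).comp (α.symm : FA K n →ₐ[K] FA K n)) (Pf a c) = _
        rw [hPf, map_sub, map_sum]
        congr 1
        · rw [Matrix.one_apply]
          split_ifs <;> simp
        · apply Finset.sum_congr rfl
          intro k _
          rw [map_smul]
          rfl
      rw [h2, h3, sub_sub_sub_cancel_left, ← Finset.sum_sub_distrib]
      apply Finset.sum_congr rfl
      intro k _
      rw [← smul_sub]
      congr 1
      show _ = tr q (α.symm (tr p' (tr p (f k - α (gx k)))))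
      rw [tr_tr p' p hpp', map_sub, α.symm_apply_apply, map_sub]
    rw [h1]
    have h4 : OrdGE m (∑ k, T k a c • β (tr p (f k - α (gx k)))) := by
      have : ∀ t : Finset (Fin n),
          OrdGE m (∑ k ∈ t, T k a c • β (tr p (f k - α (gx k)))) := by
        intro t
        induction t using Finset.induction_on with
        | empty => exact OrdGE.zero
        | insert v t hv ih =>
          rw [Finset.sum_insert hv]
          exact (((hα v).map _ hβ).smul _).add ih
      exact this _
    exact sigA_coeff _ m h4 k hk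
  have hnil := isUnit_of_allUnits_pencil (NilProp.of_commDomain K) (embDiv_commDomain K) T hall
  -- conclusion
  have key : ∀ m : ℕ, ∀ v : Fin s → K,
      (∀ w : List (Fin n), w.length = m → Matrix.vecMul v (w.map T).prod = 0) →
      ∑ a, v a • wv a ∈ φ.range := by
    intro m
    induction m with
    | zero =>
      intro v hv
      have h1 := hv [] rfl
      rw [List.map_nil, List.prod_nil, Matrix.vecMul_one] at h1
      rw [h1]
      simp
    | succ m ih =>
      intro v hv
      rw [lam_expand φ N hφ0 hNJ (∑ a, v a • wv a)]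
      apply Subalgebra.add_mem
      · exact Subalgebra.smul_mem _ (Subalgebra.one_mem _) _
      · apply Subalgebra.sum_mem
        intro k _
        refine Subalgebra.mul_mem _ ((AlgHom.mem_range φ).mpr ⟨gx k, rfl⟩) ?_
        have h1 : lam N k (∑ a, v a • wv a) = ∑ c, (Matrix.vecMul v (T k)) c • wv c := by
          rw [map_sum]
          simp only [map_smul, hT, Finset.smul_sum, smul_smul]
          rw [Finset.sum_comm]
          apply Finset.sum_congr rfl
          intro c _
          rw [← Finset.sum_smul]
          rfl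
        rw [h1]
        apply ih
        intro w hw
        rw [Matrix.vecMul_vecMul]
        have h2 := hv (k :: w) (by rw [List.length_cons, hw])
        rwa [List.map_cons, List.prod_cons] at h2
  have hrange : ∀ i, (gx i : FA K n) ∈ φ.range := by
    intro i
    have h1 := b.sum_repr ⟨gx i, hgx i⟩
    have h2 := congrArg Subtype.val h1
    simp only [Submodule.coe_sum, Submodule.coe_smul] at h2
    rw [← h2]
    apply key s
    intro w hw
    rw [hnil w (by rw [Fintype.card_fin, hw]), Matrix.vecMul_zero]
  have htop : ∀ a : FA K n, a ∈ φ.range := by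
    intro a
    induction a using FA_induction with
    | h0 => exact Subalgebra.zero_mem _
    | hadd x y hx hy => exact Subalgebra.add_mem _ hx hy
    | hmon w c =>
      apply Subalgebra.smul_mem
      induction w using FreeMonoid.inductionOn' with
      | one => exact Subalgebra.one_mem _
      | of_mul i w ih => rw [mon_mul, mon_of]; exact Subalgebra.mul_mem _ (hrange i) ih
  intro a
  obtain ⟨c, hc⟩ := htop a
  exact ⟨c, hc⟩

end main

end Pool.Agent.H193R3
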