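import Pool.Agent.H193R3.EProp

set_option autoImplicit false

/-!
Pencils `1 - ∑ T_j x_j` over a free monoid algebra: if they are invertible under all evaluations,
then all nonempty words in the `T_j` are nilpotent under all evaluations.
-/

namespace Pool.Agent.H193R3

universe u v w

open Matrix

/-- the pencil `1 - ∑ T_j x_j` -/
noncomputable def pencil {Λ : Type u} [Ring Λ] {X : Type} [Fintype X] {ι : Type} [DecidableEq ι]
    (T : X → Matrix ι ι Λ) : Matrix ι ι (MonoidAlgebra Λ (FreeMonoid X)) :=
  1 - ∑ j, (T j).map (MonoidAlgebra.single (FreeMonoid.of j))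

section cyc

variable {X : Type} {K0 : Type} [Fintype K0] [DecidableEq K0]
  {κ : Type} [Fintype κ] [DecidableEq κ] {R : Type u} [CommRing R]

open Classical in
/-- weighted adjacency matrix of the edges with label `j` -/
noncomputable def adjM (nxt : K0 → K0) (lab : K0 → X) (κ : Type) [Fintype κ] [DecidableEq κ]
    (R : Type u) [CommRing R] (j : X) : Matrix K0 K0 (Matrix κ κ (Polynomial R)) :=
  fun k p => if p = nxt k ∧ lab k = j then Matrix.scalar κ (Polynomial.X) else 0

/-- the coefficients embedded as block scalar matrices -/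
noncomputable def fhom {Λ : Type u} [Ring Λ] (K0 : Type) [Fintype K0] [DecidableEq K0]
    (ev' : Λ →+* Matrix κ κ R) :
    Λ →+* Matrix K0 K0 (Matrix κ κ (Polynomial R)) :=
  (Matrix.scalar K0).comp (((Polynomial.C : R →+* Polynomial R).mapMatrix).comp ev')

lemma fhom_mul_apply {Λ : Type u} [Ring Λ] (ev' : Λ →+* Matrix κ κ R) (t : Λ)
    (M : Matrix K0 K0 (Matrix κ κ (Polynomial R))) (k l : K0) :
    (fhom K0 ev' t * M) k l = (Polynomial.C : R →+* Polynomial R).mapMatrix (ev' t) * M k l := by
  simp [fhom, Matrix.scalar_apply, Matrix.diagonal_mul]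

lemma adjM_mul_apply (nxt : K0 → K0) (lab : K0 → X) (j : X)
    (M : Matrix K0 K0 (Matrix κ κ (Polynomial R))) (k l : K0) [Decidable (lab k = j)] :
    (adjM nxt lab κ R j * M) k l =
      if lab k = j then Matrix.scalar κ (Polynomial.X) * M (nxt k) l else 0 := by
  rw [Matrix.mul_apply]
  unfold adjM
  by_cases h : lab k = j
  · rw [if_pos h, Finset.sum_eq_single (nxt k)]
    · simp [h]
    · intro p _ hp
      simp [hp]
    · simp
  · rw [if_neg h]
    apply Finset.sum_eq_zero
    intro p _
    simp [h]

lemma commute_adj {Λ : Type u} [Ring Λ] (ev' : Λ →+* Matrix κ κ R) (nxt : K0 → K0)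
    (lab : K0 → X) (t : Λ) (j : X) : Commute (fhom K0 ev' t) (adjM nxt lab κ R j) := by
  show fhom K0 ev' t * adjM nxt lab κ R j = adjM nxt lab κ R j * fhom K0 ev' t
  refine Matrix.ext fun k l => ?_
  rw [fhom_mul_apply]
  have : (adjM nxt lab κ R j * fhom K0 ev' t) k l
      = adjM nxt lab κ R j k l * (Polynomial.C : R →+* Polynomial R).mapMatrix (ev' t) := by
    simp [fhom, Matrix.scalar_apply, Matrix.mul_diagonal]
  rw [this]
  unfold adjM
  split_ifs with h
  · exact ((Matrix.scalar_commute Polynomial.X (fun r => Commute.all _ _) _).eq).symm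
  · simp

lemma commute_word {Λ : Type u} [Ring Λ] (ev' : Λ →+* Matrix κ κ R) (nxt : K0 → K0)
    (lab : K0 → X) (t : Λ) (w : FreeMonoid X) :
    Commute (fhom K0 ev' t) (FreeMonoid.lift (adjM nxt lab κ R) w) := by
  induction w using FreeMonoid.inductionOn' with
  | one => simp
  | of_mul j w ih =>
    rw [map_mul, FreeMonoid.lift_eval_of]
    exact (commute_adj ev' nxt lab t j).mul_right ih

/-- evaluation along a labelled functional graph -/
noncomputable def cycEv {Λ : Type u} [Ring Λ] (ev' : Λ →+* Matrix κ κ R) (nxt : K0 → K0)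
    (lab : K0 → X) : MonoidAlgebra Λ (FreeMonoid X) →+* Matrix K0 K0 (Matrix κ κ (Polynomial R)) :=
  MonoidAlgebra.liftNCRingHom (fhom K0 ev') (FreeMonoid.lift (adjM nxt lab κ R))
    (commute_word ev' nxt lab)

lemma cycEv_single {Λ : Type u} [Ring Λ] (ev' : Λ →+* Matrix κ κ R) (nxt : K0 → K0)
    (lab : K0 → X) (j : X) (t : Λ) :
    cycEv ev' nxt lab (MonoidAlgebra.single (FreeMonoid.of j) t)
      = fhom K0 ev' t * adjM nxt lab κ R j := by
  rw [cycEv, MonoidAlgebra.liftNCRingHom_single, FreeMonoid.lift_eval_of]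

end cyc

/-- ordered product of labels along the orbit -/
def orbProd {X K0 : Type} {B : Type v} [Monoid B] (T' : X → B) (nxt : K0 → K0) (lab : K0 → X) :
    ℕ → K0 → B
  | 0, _ => 1
  | m + 1, k => T' (lab k) * orbProd T' nxt lab m (nxt k)

lemma orbProd_add {X K0 : Type} {B : Type v} [Monoid B] (T' : X → B) (nxt : K0 → K0)
    (lab : K0 → X) (a b : ℕ) (k : K0) :
    orbProd T' nxt lab (a + b) k = orbProd T' nxt lab a k * orbProd T' nxt lab b (nxt^[a] k) := by
  induction a generalizing k with
  | zero => simp [orbProd]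
  | succ a ih =>
    rw [Nat.succ_add, orbProd, ih, orbProd, Function.iterate_succ_apply, mul_assoc]

lemma orbProd_mul {X K0 : Type} {B : Type v} [Monoid B] (T' : X → B) (nxt : K0 → K0)
    (lab : K0 → X) (N : ℕ) (k : K0) (hk : nxt^[N] k = k) (M : ℕ) :
    orbProd T' nxt lab (N * M) k = orbProd T' nxt lab N k ^ M := by
  induction M with
  | zero => simp [orbProd]
  | succ M ih =>
    rw [Nat.mul_succ, add_comm, orbProd_add, hk, ih, pow_succ']

lemma orbProd_list {X K0 : Type} {B : Type v} [Monoid B] (T' : X → B) (nxt : K0 → K0)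
    (lab : K0 → X) (w : List X) :
    ∀ k : K0, (∀ i (h : i < w.length), w[i] = lab (nxt^[i] k)) →
      orbProd T' nxt lab w.length k = (w.map T').prod := by
  induction w with
  | nil => intro k _; simp [orbProd]
  | cons a w ih =>
    intro k hk
    rw [List.length_cons, orbProd, List.map_cons, List.prod_cons]
    have h0 := hk 0 (by simp)
    simp only [List.getElem_cons_zero, Function.iterate_zero, id_eq] at h0
    rw [← h0, ih (nxt k)]
    intro i hi
    have h1 := hk (i + 1) (by simpa using hi)
    simpa [Function.iterate_succ_apply] using h1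

theorem pencil_nil {Λ : Type u} [Ring Λ] {X : Type} [Fintype X]
    {ι : Type} [Fintype ι] [DecidableEq ι] (T : X → Matrix ι ι Λ)
    (hT : ∀ (κ : Type) [Fintype κ] [DecidableEq κ] (R : Type u) [CommRing R] [IsDomain R]
      (ev : MonoidAlgebra Λ (FreeMonoid X) →+* Matrix κ κ R), IsUnit (ev.mapMatrix (pencil T)))
    (κ : Type) [Fintype κ] [DecidableEq κ] (R : Type u) [CommRing R] [IsDomain R]
    (ev' : Λ →+* Matrix κ κ R) (w : List X) (hw : w ≠ []) :
    IsNilpotent (ev'.mapMatrix (w.map T).prod) := by
  classical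
  -- the cycle
  have hN : 0 < w.length := List.length_pos_iff.mpr hw
  let nxt : Fin w.length → Fin w.length := fun k => ⟨(k.1 + 1) % w.length, Nat.mod_lt _ hN⟩
  let lab : Fin w.length → X := fun k => w[k.1]
  have hiter : ∀ i : ℕ, nxt^[i] ⟨0, hN⟩ = ⟨i % w.length, Nat.mod_lt _ hN⟩ := by
    intro i
    induction i with
    | zero => simp
    | succ i ih =>
      rw [Function.iterate_succ_apply', ih]
      simp [nxt]
  let ev1 := cycEv (R := R) (κ := κ) ev' nxt lab
  have hu : IsUnit (ev1.mapMatrix (pencil T)) := by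
    have h1 := hT (Fin w.length × κ) (Polynomial R)
      ((Matrix.compRingEquiv (Fin w.length) κ (Polynomial R)).toRingHom.comp ev1)
    have h2 := h1.map (((Matrix.compRingEquiv (Fin w.length) κ
      (Polynomial R)).symm.toRingHom).mapMatrix (m := ι))
    have h3 : ((Matrix.compRingEquiv (Fin w.length) κ
      (Polynomial R)).symm.toRingHom).mapMatrix
        (((Matrix.compRingEquiv (Fin w.length) κ (Polynomial R)).toRingHom.comp ev1).mapMatrix
          (pencil T)) = ev1.mapMatrix (pencil T) := by
      refine Matrix.ext fun a b => ?_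
      simp only [RingHom.mapMatrix_apply, Matrix.map_apply, RingHom.comp_apply]
      exact (Matrix.compRingEquiv (Fin w.length) κ (Polynomial R)).symm_apply_apply _
    rw [h3] at h2
    exact h2
  obtain ⟨Q, hQ⟩ := hu.exists_right_inv
  have hL : ∀ a c, (ev1.mapMatrix (pencil T)) a c
      = (1 : Matrix ι ι (Matrix (Fin w.length) (Fin w.length) (Matrix κ κ (Polynomial R)))) a c
        - ∑ j, fhom (Fin w.length) ev' (T j a c) * adjM nxt lab κ R j := by
    intro a c
    rw [RingHom.mapMatrix_apply, Matrix.map_apply, pencil, Matrix.sub_apply, map_sub,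
      Matrix.sum_apply, map_sum]
    congr 1
    · rw [Matrix.one_apply, Matrix.one_apply]
      split_ifs <;> simp
    · apply Finset.sum_congr rfl
      intro j _
      rw [Matrix.map_apply]
      exact cycEv_single ev' nxt lab j _
  have hQ2 : ∀ a b k l, Q a b k l
      = (1 : Matrix ι ι (Matrix (Fin w.length) (Fin w.length) (Matrix κ κ (Polynomial R)))) a b k l
        + ∑ c, (Polynomial.C : R →+* Polynomial R).mapMatrix (ev' (T (lab k) a c))
          * (Matrix.scalar κ (Polynomial.X) * Q c b (nxt k) l) := by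
    intro a b k l
    have h1 := congrFun (congrFun (congrFun (congrFun hQ a) b) k) l
    rw [Matrix.mul_apply] at h1
    simp only [hL, sub_mul, Finset.sum_sub_distrib] at h1
    rw [← h1]
    rw [Matrix.sub_apply]
    have h2 : (∑ c, (1 : Matrix ι ι (Matrix (Fin w.length) (Fin w.length)
        (Matrix κ κ (Polynomial R)))) a c * Q c b) k l = Q a b k l := by
      rw [← Matrix.mul_apply, one_mul]
    rw [h2]
    have h3 : (∑ c, (∑ j, fhom (Fin w.length) ev' (T j a c) * adjM nxt lab κ R j) * Q c b) k l
        = ∑ c, (Polynomial.C : R →+* Polynomial R).mapMatrix (ev' (T (lab k) a c))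
          * (Matrix.scalar κ (Polynomial.X) * Q c b (nxt k) l) := by
      rw [Matrix.sum_apply]
      apply Finset.sum_congr rfl
      intro c _
      rw [Finset.sum_mul, Matrix.sum_apply, Finset.sum_eq_single (lab k)]
      · rw [mul_assoc, fhom_mul_apply, adjM_mul_apply, if_pos rfl]
      · intro j _ hj
        rw [mul_assoc, fhom_mul_apply, adjM_mul_apply, if_neg (Ne.symm hj), mul_zero]
      · simp
    rw [h3, sub_add_cancel]
  -- coefficients
  let T' : X → Matrix ι ι (Matrix κ κ R) := fun j => ev'.mapMatrix (T j)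
  have hcoef : ∀ (m : ℕ) (k : Fin w.length),
      (Matrix.of fun a b => (Q a b k (nxt^[m] k)).map (fun p => p.coeff m) :
        Matrix ι ι (Matrix κ κ R)) = orbProd T' nxt lab m k := by
    intro m
    induction m with
    | zero =>
      intro k
      ext a b c d
      simp only [Matrix.of_apply, Matrix.map_apply, Function.iterate_zero, id_eq, orbProd]
      rw [hQ2, Matrix.add_apply, Polynomial.coeff_add, Matrix.sum_apply,
        Polynomial.finsetSum_coeff, Finset.sum_eq_zero, add_zero]
      · rw [Matrix.one_apply, Matrix.one_apply]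
        by_cases hab : a = b
        · subst hab
          rw [if_pos rfl, if_pos rfl, Matrix.one_apply_eq, Matrix.one_apply, Matrix.one_apply]
          split_ifs <;> simp
        · rw [if_neg hab, if_neg hab]
          simp
      · intro e _
        rw [Matrix.mul_apply, Polynomial.finsetSum_coeff]
        apply Finset.sum_eq_zero
        intro f _
        rw [Matrix.scalar_apply, Matrix.diagonal_mul, RingHom.mapMatrix_apply, Matrix.map_apply,
          Polynomial.coeff_C_mul, Polynomial.coeff_X_mul_zero, mul_zero]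
    | succ m ih =>
      intro k
      rw [orbProd, ← ih (nxt k)]
      ext a b c d
      simp only [Matrix.of_apply, Matrix.map_apply, Function.iterate_succ_apply]
      rw [hQ2, Matrix.add_apply, Polynomial.coeff_add, Matrix.sum_apply,
        Polynomial.finsetSum_coeff, Matrix.mul_apply, Matrix.sum_apply]
      have h0 : ((1 : Matrix ι ι (Matrix (Fin w.length) (Fin w.length)
          (Matrix κ κ (Polynomial R)))) a b k (nxt^[m] (nxt k)) c d).coeff (m + 1) = 0 := by
        rw [Matrix.one_apply]
        split_ifs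
        · rw [Matrix.one_apply]
          split_ifs
          · rw [Matrix.one_apply]
            split_ifs <;> simp [Polynomial.coeff_one]
          · simp
        · simp
      rw [h0, zero_add]
      apply Finset.sum_congr rfl
      intro e _
      rw [Matrix.mul_apply, Matrix.mul_apply, Polynomial.finsetSum_coeff]
      apply Finset.sum_congr rfl
      intro f _
      rw [Matrix.scalar_apply, Matrix.diagonal_mul, RingHom.mapMatrix_apply, Matrix.map_apply,
        Polynomial.coeff_C_mul, Polynomial.coeff_X_mul]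
      simp [T']
  -- degree bound
  have hbound : ∃ m0 : ℕ, ∀ m, m0 ≤ m → ∀ a b k l c d, (Q a b k l c d).coeff m = 0 := by
    refine ⟨(∑ a, ∑ b, ∑ k, ∑ l, ∑ c, ∑ d, (Q a b k l c d).natDegree) + 1,
      fun m hm a b k l c d => ?_⟩
    apply Polynomial.coeff_eq_zero_of_natDegree_lt
    have h1 : (Q a b k l c d).natDegree ≤ ∑ d, (Q a b k l c d).natDegree :=
      Finset.single_le_sum (f := fun d => (Q a b k l c d).natDegree) (fun _ _ => Nat.zero_le _)
        (Finset.mem_univ d)
    have h2 : _ ≤ ∑ c, ∑ d, (Q a b k l c d).natDegree :=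
      Finset.single_le_sum (f := fun c => ∑ d, (Q a b k l c d).natDegree)
        (fun _ _ => Nat.zero_le _) (Finset.mem_univ c)
    have h3 : _ ≤ ∑ l, ∑ c, ∑ d, (Q a b k l c d).natDegree :=
      Finset.single_le_sum (f := fun l => ∑ c, ∑ d, (Q a b k l c d).natDegree)
        (fun _ _ => Nat.zero_le _) (Finset.mem_univ l)
    have h4 : _ ≤ ∑ k, ∑ l, ∑ c, ∑ d, (Q a b k l c d).natDegree :=
      Finset.single_le_sum (f := fun k => ∑ l, ∑ c, ∑ d, (Q a b k l c d).natDegree)
        (fun _ _ => Nat.zero_le _) (Finset.mem_univ k)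
    have h5 : _ ≤ ∑ b, ∑ k, ∑ l, ∑ c, ∑ d, (Q a b k l c d).natDegree :=
      Finset.single_le_sum (f := fun b => ∑ k, ∑ l, ∑ c, ∑ d, (Q a b k l c d).natDegree)
        (fun _ _ => Nat.zero_le _) (Finset.mem_univ b)
    have h6 : _ ≤ ∑ a, ∑ b, ∑ k, ∑ l, ∑ c, ∑ d, (Q a b k l c d).natDegree :=
      Finset.single_le_sum (f := fun a => ∑ b, ∑ k, ∑ l, ∑ c, ∑ d, (Q a b k l c d).natDegree)
        (fun _ _ => Nat.zero_le _) (Finset.mem_univ a)
    omega
  obtain ⟨m0, hm0⟩ := hbound
  refine ⟨m0, ?_⟩
  have h1 : ev'.mapMatrix (w.map T).prod = orbProd T' nxt lab w.length ⟨0, hN⟩ := by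
    rw [orbProd_list, map_list_prod, List.map_map]
    · rfl
    · intro i hi
      rw [hiter]
      simp [lab, Nat.mod_eq_of_lt hi]
  rw [h1, ← orbProd_mul _ _ _ _ _ (by rw [hiter]; simp), ← hcoef]
  ext a b c d
  rw [Matrix.of_apply, Matrix.map_apply, hm0]
  · rfl
  · exact Nat.le_mul_of_pos_left m0 hN

end Pool.Agent.H193R3
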