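import Pool.Agent.H193R3.Pencil
import Pool.Agent.H193R3.LevMatrix

set_option autoImplicit false

/-!
The detection property passes from `Λ` to the free monoid algebra `Λ⟨X⟩`.
-/

namespace Pool.Agent.H193R3

universe u v w

open Matrix

/-- `Λ` embeds in a division ring -/
def EmbDiv (Λ : Type u) [Ring Λ] : Prop :=
  ∃ (D : Type u) (_ : DivisionRing D) (e : Λ →+* D), Function.Injective e

section strip

variable {Λ : Type u} [Ring Λ] {X : Type}

/-- strip the letter `j` from the left -/
noncomputable def strip (j : X) (f : MonoidAlgebra Λ (FreeMonoid X)) :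
    MonoidAlgebra Λ (FreeMonoid X) :=
  MonoidAlgebra.ofCoeff (f.coeff.comapDomain (fun w => FreeMonoid.of j * w)
    (fun _ _ _ _ h => mul_left_cancel h))

lemma coeff_strip (j : X) (f : MonoidAlgebra Λ (FreeMonoid X)) (w : FreeMonoid X) :
    (strip j f).coeff w = f.coeff (FreeMonoid.of j * w) := rfl

lemma of_mul_ne_one (j : X) (d : FreeMonoid X) : FreeMonoid.of j * d ≠ 1 := by
  intro h
  have := congrArg FreeMonoid.length h
  simp [FreeMonoid.length_mul] at this

lemma of_mul_inj {i j : X} {v w : FreeMonoid X} (h : FreeMonoid.of i * v = FreeMonoid.of j * w) :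
    i = j ∧ v = w := by
  have h1 := congrArg FreeMonoid.toList h
  rw [FreeMonoid.toList_of_mul, FreeMonoid.toList_of_mul, List.cons.injEq] at h1
  exact ⟨h1.1, FreeMonoid.toList.injective h1.2⟩

lemma coeff_single_of_mul (j : X) (t : Λ) (f : MonoidAlgebra Λ (FreeMonoid X))
    (w : FreeMonoid X) :
    (MonoidAlgebra.single (FreeMonoid.of j) t * f).coeff (FreeMonoid.of j * w)
      = t * f.coeff w := by
  apply MonoidAlgebra.coeff_single_mul_eq_mul_coeff
  intro m' _
  constructor
  · intro h; exact (of_mul_inj h).2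
  · intro h; rw [h]

lemma coeff_single_of_mul_ne {i j : X} (hij : i ≠ j) (t : Λ)
    (f : MonoidAlgebra Λ (FreeMonoid X)) (w : FreeMonoid X) :
    (MonoidAlgebra.single (FreeMonoid.of i) t * f).coeff (FreeMonoid.of j * w) = 0 := by
  apply MonoidAlgebra.coeff_single_mul_of_forall_mul_ne
  intro d h
  exact hij (of_mul_inj h).1

lemma coeff_single_of_mul_one (i : X) (t : Λ) (f : MonoidAlgebra Λ (FreeMonoid X)) :
    (MonoidAlgebra.single (FreeMonoid.of i) t * f).coeff 1 = 0 := by
  apply MonoidAlgebra.coeff_single_mul_of_forall_mul_ne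
  intro d
  exact of_mul_ne_one i d

lemma strip_decomp [Fintype X] (f : MonoidAlgebra Λ (FreeMonoid X)) :
    f = MonoidAlgebra.single 1 (f.coeff 1)
      + ∑ j, MonoidAlgebra.single (FreeMonoid.of j) 1 * strip j f := by
  classical
  ext w
  rw [MonoidAlgebra.coeff_add, MonoidAlgebra.coeff_sum, Finsupp.add_apply, Finsupp.finsetSum_apply]
  induction w using FreeMonoid.casesOn with
  | one =>
    rw [Finset.sum_eq_zero (fun j _ => coeff_single_of_mul_one j _ _)]
    simp
  | of_mul j w =>
    rw [Finset.sum_eq_single j (fun i _ hi => coeff_single_of_mul_ne hi _ _ _) (by simp),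
      coeff_single_of_mul, coeff_strip, one_mul, MonoidAlgebra.coeff_single,
      Finsupp.single_eq_of_ne, zero_add]
    exact of_mul_ne_one j w

/-- degree at most `d` -/
def DegLE (d : ℕ) (f : MonoidAlgebra Λ (FreeMonoid X)) : Prop :=
  ∀ w : FreeMonoid X, d < w.length → f.coeff w = 0

lemma exists_degLE (f : MonoidAlgebra Λ (FreeMonoid X)) : ∃ d, DegLE d f := by
  classical
  refine ⟨f.coeff.support.sup (fun w => w.length), fun w hw => ?_⟩
  by_contra h
  have : w.length ≤ f.coeff.support.sup (fun w => w.length) :=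
    Finset.le_sup (f := fun w : FreeMonoid X => w.length) (Finsupp.mem_support_iff.mpr h)
  omega

lemma DegLE.mono {d e : ℕ} (h : d ≤ e) {f : MonoidAlgebra Λ (FreeMonoid X)} (hf : DegLE d f) :
    DegLE e f := fun w hw => hf w (by omega)

end strip

section pencilUnit

variable {Λ : Type u} [Ring Λ] {X : Type} [Fintype X] {ι : Type} [Fintype ι] [DecidableEq ι]

/-- the linear part of the pencil -/
noncomputable def linPart (T : X → Matrix ι ι Λ) : Matrix ι ι (MonoidAlgebra Λ (FreeMonoid X)) :=
  ∑ j, (T j).map (MonoidAlgebra.single (FreeMonoid.of j))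

omit [DecidableEq ι] in
lemma linPart_mul_apply (T : X → Matrix ι ι Λ) (M : Matrix ι ι (MonoidAlgebra Λ (FreeMonoid X)))
    (a b : ι) : (linPart T * M) a b
      = ∑ c, ∑ j, MonoidAlgebra.single (FreeMonoid.of j) (T j a c) * M c b := by
  rw [Matrix.mul_apply]
  apply Finset.sum_congr rfl
  intro c _
  rw [linPart, Matrix.sum_apply, Finset.sum_mul]
  rfl

lemma linPart_pow_coeff (T : X → Matrix ι ι Λ) (m : ℕ) :
    ∀ w : FreeMonoid X, ((linPart T) ^ m).map (fun f => f.coeff w)
      = if w.length = m then (w.toList.map T).prod else 0 := by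
  classical
  induction m with
  | zero =>
    intro w
    ext a b
    rw [pow_zero, Matrix.map_apply, Matrix.one_apply]
    by_cases hw : w.length = 0
    · rw [if_pos hw]
      rw [FreeMonoid.length_eq_zero] at hw
      subst hw
      rw [FreeMonoid.toList_one, List.map_nil, List.prod_nil, Matrix.one_apply]
      split_ifs <;> simp
    · rw [if_neg hw]
      have hw1 : (1 : FreeMonoid X) ≠ w := fun h => hw (by rw [← h]; rfl)
      split_ifs
      · rw [MonoidAlgebra.one_def, MonoidAlgebra.coeff_single, Finsupp.single_eq_of_ne hw1.symm]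
        rfl
      · rfl
  | succ m ih =>
    intro w
    ext a b
    rw [pow_succ', Matrix.map_apply, linPart_mul_apply, MonoidAlgebra.coeff_sum,
      Finsupp.finsetSum_apply]
    simp only [MonoidAlgebra.coeff_sum, Finsupp.finsetSum_apply]
    induction w using FreeMonoid.casesOn with
    | one =>
      rw [if_neg (by simp)]
      apply Finset.sum_eq_zero
      intro c _
      apply Finset.sum_eq_zero
      intro j _
      exact coeff_single_of_mul_one j _ _
    | of_mul j w =>
      have h1 : ∀ c, ∑ i, (MonoidAlgebra.single (FreeMonoid.of i) (T i a c)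
          * ((linPart T) ^ m) c b).coeff (FreeMonoid.of j * w)
          = T j a c * (((linPart T) ^ m) c b).coeff w := by
        intro c
        rw [Finset.sum_eq_single j (fun i _ hi => coeff_single_of_mul_ne hi _ _ _) (by simp),
          coeff_single_of_mul]
      rw [Finset.sum_congr rfl (fun c _ => h1 c)]
      have h2 : ∀ c, (((linPart T) ^ m) c b).coeff w
          = (if w.length = m then (w.toList.map T).prod else 0 : Matrix ι ι Λ) c b := by
        intro c
        rw [← ih w]; rfl
      simp only [h2]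
      have h3 : (FreeMonoid.of j * w).length = m + 1 ↔ w.length = m := by
        rw [FreeMonoid.length_mul, FreeMonoid.length_of]; omega
      by_cases hw : w.length = m
      · rw [if_pos (h3.mpr hw), if_pos hw, FreeMonoid.toList_of_mul, List.map_cons,
          List.prod_cons, Matrix.mul_apply]
      · rw [if_neg (fun h => hw (h3.mp h)), if_neg hw]
        simp

lemma isUnit_pencil (T : X → Matrix ι ι Λ) (s : ℕ)
    (hs : ∀ w : List X, s ≤ w.length → (w.map T).prod = 0) : IsUnit (pencil T) := by
  have h1 : (linPart T) ^ s = 0 := by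
    ext a b w
    have := congrFun (congrFun (linPart_pow_coeff T s w) a) b
    rw [Matrix.map_apply] at this
    rw [this]
    split_ifs with h
    · rw [hs _ (by rw [← h]; exact le_rfl)]; rfl
    · rfl
  have h2 : pencil T = 1 - linPart T := rfl
  rw [h2]
  exact IsNilpotent.isUnit_one_sub ⟨s, h1⟩

end pencilUnit

section schur

variable {B : Type v} [Ring B] {ι κ : Type} [Fintype ι] [DecidableEq ι] [Fintype κ]
  [DecidableEq κ]

lemma isUnit_fromBlocks_diag (L : Matrix ι ι B) :
    IsUnit (fromBlocks L 0 0 (1 : Matrix κ κ B)) ↔ IsUnit L := by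
  constructor
  · rintro ⟨⟨U, V, hUV, hVU⟩, hU⟩
    dsimp at hU
    subst hU
    rw [isUnit_iff_exists]
    refine ⟨V.toBlocks₁₁, ?_, ?_⟩
    · have h := congrArg Matrix.toBlocks₁₁ hUV
      rw [← fromBlocks_toBlocks V, fromBlocks_multiply] at h
      rw [toBlocks_fromBlocks₁₁] at h
      rw [Matrix.zero_mul, add_zero] at h
      rw [h, ← fromBlocks_one, toBlocks_fromBlocks₁₁]
    · have h := congrArg Matrix.toBlocks₁₁ hVU
      rw [← fromBlocks_toBlocks V, fromBlocks_multiply] at h
      rw [toBlocks_fromBlocks₁₁] at h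
      rw [Matrix.mul_zero, add_zero] at h
      rw [h, ← fromBlocks_one, toBlocks_fromBlocks₁₁]
  · intro h
    rw [isUnit_iff_exists] at h ⊢
    obtain ⟨V, h1, h2⟩ := h
    refine ⟨fromBlocks V 0 0 1, ?_, ?_⟩
    · rw [fromBlocks_multiply]; simp [h1, fromBlocks_one]
    · rw [fromBlocks_multiply]; simp [h2, fromBlocks_one]

lemma isUnit_fromBlocks_schur (A : Matrix ι ι B) (C : Matrix ι κ B) (D : Matrix κ ι B) :
    IsUnit (fromBlocks A (-C) D 1) ↔ IsUnit (A + C * D) := by
  have h1 : IsUnit (fromBlocks (1 : Matrix ι ι B) (-C) 0 (1 : Matrix κ κ B)) := by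
    rw [isUnit_iff_exists]
    refine ⟨fromBlocks 1 C 0 1, ?_, ?_⟩ <;> rw [fromBlocks_multiply] <;> simp [fromBlocks_one]
  have h2 : IsUnit (fromBlocks (1 : Matrix ι ι B) 0 D (1 : Matrix κ κ B)) := by
    rw [isUnit_iff_exists]
    refine ⟨fromBlocks 1 0 (-D) 1, ?_, ?_⟩ <;> rw [fromBlocks_multiply] <;> simp [fromBlocks_one]
  have h3 : fromBlocks A (-C) D 1 = fromBlocks (1 : Matrix ι ι B) (-C) 0 (1 : Matrix κ κ B)
      * fromBlocks (A + C * D) 0 0 1 * fromBlocks 1 0 D 1 := by
    rw [fromBlocks_multiply, fromBlocks_multiply]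
    simp
  rw [h3]
  obtain ⟨u1, hu1⟩ := h1
  obtain ⟨u2, hu2⟩ := h2
  rw [← hu1, ← hu2, Units.isUnit_mul_units, Units.isUnit_units_mul, isUnit_fromBlocks_diag]

end schur

section main

variable {Λ : Type u} [Ring Λ] {X : Type} [Fintype X]

/-- all evaluations of `L` are invertible -/
def AllUnits {Λ : Type u} [Ring Λ] {ι : Type} [Fintype ι] [DecidableEq ι] (L : Matrix ι ι Λ) :
    Prop :=
  ∀ (κ : Type) [Fintype κ] [DecidableEq κ] (R : Type u) [CommRing R] [IsDomain R]
      (ev : Λ →+* Matrix κ κ R), IsUnit (ev.mapMatrix L)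

/-- augmentation -/
noncomputable def aug (Λ : Type u) [Ring Λ] (X : Type) :
    MonoidAlgebra Λ (FreeMonoid X) →+* Λ :=
  MonoidAlgebra.liftNCRingHom (RingHom.id Λ) (FreeMonoid.lift (fun _ : X => (0 : Λ))) (by
    intro t w
    induction w using FreeMonoid.casesOn with
    | one => simp
    | of_mul j w => rw [map_mul, FreeMonoid.lift_eval_of, zero_mul]; exact Commute.zero_right _)

omit [Fintype X] in
lemma aug_single_one (t : Λ) : aug Λ X (MonoidAlgebra.single 1 t) = t := by
  rw [aug, MonoidAlgebra.liftNCRingHom_single]; simp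

omit [Fintype X] in
lemma aug_single_of (j : X) (t : Λ) : aug Λ X (MonoidAlgebra.single (FreeMonoid.of j) t) = 0 := by
  rw [aug, MonoidAlgebra.liftNCRingHom_single]; simp

lemma linear_decomp (f : MonoidAlgebra Λ (FreeMonoid X)) (hf : DegLE 1 f) :
    f = MonoidAlgebra.single 1 (f.coeff 1)
      + ∑ j, MonoidAlgebra.single (FreeMonoid.of j) (f.coeff (FreeMonoid.of j)) := by
  conv_lhs => rw [strip_decomp f]
  congr 1
  apply Finset.sum_congr rfl
  intro j _
  have h1 : strip j f = MonoidAlgebra.single 1 (f.coeff (FreeMonoid.of j)) := by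
    ext w
    rw [coeff_strip, MonoidAlgebra.coeff_single]
    by_cases hw : w = 1
    · subst hw; simp
    · rw [Finsupp.single_eq_of_ne hw]
      apply hf
      rw [FreeMonoid.length_mul, FreeMonoid.length_of]
      have : w.length ≠ 0 := fun h => hw (FreeMonoid.length_eq_zero.mp h)
      omega
  rw [h1, MonoidAlgebra.single_mul_single, mul_one, one_mul]

theorem isUnit_of_allUnits_pencil (hN : NilProp Λ) (hD : EmbDiv Λ) {ι : Type} [Fintype ι]
    [DecidableEq ι] (T : X → Matrix ι ι Λ) (hT : AllUnits (pencil T)) :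
    ∀ w : List X, Fintype.card ι ≤ w.length → (w.map T).prod = 0 := by
  obtain ⟨D, _, e, he⟩ := hD
  apply levitzki_matrix e he T
  intro w hw
  apply hN
  intro κ _ _ R _ _ ev'
  exact pencil_nil T hT κ R ev' w hw

theorem isUnit_linear (hE : EProp Λ) (hN : NilProp Λ) (hD : EmbDiv Λ) {ι : Type} [Fintype ι]
    [DecidableEq ι] (L : Matrix ι ι (MonoidAlgebra Λ (FreeMonoid X)))
    (hdeg : ∀ a b, DegLE 1 (L a b)) (hL : AllUnits L) : IsUnit L := by
  classical
  let B : Matrix ι ι Λ := L.map (fun f => f.coeff 1)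
  let Lj : X → Matrix ι ι Λ := fun j => L.map (fun f => f.coeff (FreeMonoid.of j))
  have hB : IsUnit B := by
    apply hE
    intro κ _ _ R _ _ ev'
    have h1 := hL κ R (ev'.comp (aug Λ X))
    have h2 : (ev'.comp (aug Λ X)).mapMatrix L = ev'.mapMatrix B := by
      ext1 a b
      simp only [RingHom.mapMatrix_apply, Matrix.map_apply, RingHom.comp_apply]
      congr 1
      conv_lhs => rw [linear_decomp (L a b) (hdeg a b)]
      rw [map_add, map_sum, aug_single_one,
        Finset.sum_eq_zero (fun j _ => aug_single_of j _), add_zero]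
      rfl
    rwa [h2] at h1
  obtain ⟨B', hBB', hB'B⟩ := isUnit_iff_exists.mp hB
  let T : X → Matrix ι ι Λ := fun j => -(B' * Lj j)
  let emb : Matrix ι ι Λ →+* Matrix ι ι (MonoidAlgebra Λ (FreeMonoid X)) :=
    (MonoidAlgebra.singleOneRingHom (R := Λ) (M := FreeMonoid X)).mapMatrix
  have hdecomp : L = emb B + ∑ j, (Lj j).map (MonoidAlgebra.single (FreeMonoid.of j)) := by
    ext1 a b
    rw [Matrix.add_apply, Matrix.sum_apply]
    exact linear_decomp (L a b) (hdeg a b)
  have hmul : ∀ (M N : Matrix ι ι Λ) (j : X),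
      emb M * N.map (MonoidAlgebra.single (FreeMonoid.of j))
        = (M * N).map (MonoidAlgebra.single (FreeMonoid.of j)) := by
    intro M N j
    ext1 a b
    rw [Matrix.mul_apply, Matrix.map_apply, Matrix.mul_apply]
    have : ∀ t : Λ, MonoidAlgebra.single (FreeMonoid.of j) t
        = MonoidAlgebra.singleAddHom (FreeMonoid.of j) t := fun t => rfl
    rw [this, map_sum]
    apply Finset.sum_congr rfl
    intro c _
    show MonoidAlgebra.single 1 (M a c) * MonoidAlgebra.single (FreeMonoid.of j) (N c b) = _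
    rw [MonoidAlgebra.single_mul_single, one_mul]
    rfl
  have hpen : pencil T = emb B' * L := by
    rw [hdecomp, mul_add, ← map_mul, hB'B, map_one, Finset.mul_sum, pencil, sub_eq_add_neg]
    congr 1
    rw [← Finset.sum_neg_distrib]
    apply Finset.sum_congr rfl
    intro j _
    rw [hmul]
    ext1 a b
    rw [Matrix.neg_apply, Matrix.map_apply, Matrix.map_apply]
    show -(MonoidAlgebra.singleAddHom (FreeMonoid.of j) ((-(B' * Lj j)) a b))
      = MonoidAlgebra.singleAddHom (FreeMonoid.of j) ((B' * Lj j) a b)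
    rw [Matrix.neg_apply, map_neg, neg_neg]
  have hLpen : L = emb B * pencil T := by
    rw [hpen, ← mul_assoc, ← map_mul, hBB', map_one, one_mul]
  have hunitB' : IsUnit B' := isUnit_iff_exists.mpr ⟨B, hB'B, hBB'⟩
  have hT : AllUnits (pencil T) := by
    intro κ _ _ R _ _ ev
    rw [hpen, map_mul]
    exact ((hunitB'.map emb).map _).mul (hL κ R ev)
  rw [hLpen]
  exact (hB.map emb).mul
    (isUnit_pencil T (Fintype.card ι) (isUnit_of_allUnits_pencil hN hD T hT))

theorem isUnit_deg (hE : EProp Λ) (hN : NilProp Λ) (hD : EmbDiv Λ) (d : ℕ) :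
    ∀ {ι : Type} [Fintype ι] [DecidableEq ι] (L : Matrix ι ι (MonoidAlgebra Λ (FreeMonoid X))),
      (∀ a b, DegLE (d + 1) (L a b)) → AllUnits L → IsUnit L := by
  classical
  induction d with
  | zero => intro ι _ _ L h1 h2; exact isUnit_linear hE hN hD L h1 h2
  | succ d ih =>
    intro ι _ _ L h1 h2
    let A : Matrix ι ι (MonoidAlgebra Λ (FreeMonoid X)) :=
      L.map (fun f => MonoidAlgebra.single 1 (f.coeff 1))
    let C : Matrix ι (X × ι) (MonoidAlgebra Λ (FreeMonoid X)) :=
      Matrix.of fun a jb => if a = jb.2 then MonoidAlgebra.single (FreeMonoid.of jb.1) 1 else 0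
    let E : Matrix (X × ι) ι (MonoidAlgebra Λ (FreeMonoid X)) :=
      Matrix.of fun ja b => strip ja.1 (L ja.2 b)
    have hdec : A + C * E = L := by
      ext1 a b
      rw [Matrix.add_apply, Matrix.mul_apply]
      conv_rhs => rw [strip_decomp (L a b)]
      congr 1
      rw [Fintype.sum_prod_type]
      apply Finset.sum_congr rfl
      intro j _
      rw [Finset.sum_eq_single a]
      · simp [C, E]
      · intro c _ hc
        simp [C, Ne.symm hc]
      · simp
    have hu : ∀ {B : Type u} [Ring B] (f : MonoidAlgebra Λ (FreeMonoid X) →+* B),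
        IsUnit (f.mapMatrix (fromBlocks A (-C) E 1)) ↔ IsUnit (f.mapMatrix L) := by
      intro B _ f
      have h3 : f.mapMatrix (fromBlocks A (-C) E 1)
          = fromBlocks (A.map f) (-(C.map f)) (E.map f) 1 := by
        rw [RingHom.mapMatrix_apply, Matrix.fromBlocks_map]
        congr 1
        · ext1 a b; simp
        · ext1 a b
          rw [Matrix.map_apply, Matrix.one_apply, Matrix.one_apply]
          split_ifs <;> simp
      rw [h3, isUnit_fromBlocks_schur]
      have h4 : A.map f + C.map f * E.map f = f.mapMatrix L := by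
        rw [← hdec, RingHom.mapMatrix_apply]
        ext1 a b
        simp only [Matrix.add_apply, Matrix.map_apply, Matrix.mul_apply, map_add, map_sum, map_mul]
      rw [h4]
    have hid := hu (RingHom.id _)
    have h5 : (RingHom.id (MonoidAlgebra Λ (FreeMonoid X))).mapMatrix L = L := by
      ext1 a b; rfl
    have h6 : (RingHom.id (MonoidAlgebra Λ (FreeMonoid X))).mapMatrix (fromBlocks A (-C) E 1)
      = fromBlocks A (-C) E 1 := by
      ext1 a b; rfl
    rw [h5, h6] at hid
    rw [← hid]
    apply ih
    · intro a b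
      rcases a with a | a <;> rcases b with b | b
      · rw [fromBlocks_apply₁₁]
        intro w hw
        simp only [A, Matrix.map_apply, MonoidAlgebra.coeff_single]
        rw [Finsupp.single_eq_of_ne]
        rintro rfl
        simp at hw
      · rw [fromBlocks_apply₁₂, Matrix.neg_apply]
        intro w hw
        simp only [C, Matrix.of_apply]
        split_ifs
        · rw [MonoidAlgebra.coeff_neg, Finsupp.neg_apply, MonoidAlgebra.coeff_single,
            Finsupp.single_eq_of_ne, neg_zero]
          rintro rfl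
          simp at hw
        · simp
      · rw [fromBlocks_apply₂₁]
        intro w hw
        simp only [E, Matrix.of_apply]
        rw [coeff_strip]
        apply h1
        rw [FreeMonoid.length_mul, FreeMonoid.length_of]
        omega
      · rw [fromBlocks_apply₂₂]
        intro w hw
        rw [Matrix.one_apply]
        split_ifs
        · rw [MonoidAlgebra.one_def, MonoidAlgebra.coeff_single, Finsupp.single_eq_of_ne]
          rintro rfl
          simp at hw
        · simp
    · intro κ _ _ R _ _ ev
      rw [hu ev]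
      exact h2 κ R ev

theorem EProp.monoidAlgebra (hE : EProp Λ) (hN : NilProp Λ) (hD : EmbDiv Λ) :
    EProp (MonoidAlgebra Λ (FreeMonoid X)) := by
  intro ι _ _ L hL
  classical
  choose d hd using fun a b => exists_degLE (L a b)
  apply isUnit_deg hE hN hD (∑ a, ∑ b, d a b) L _ hL
  intro a b
  apply (hd a b).mono
  have h1 : d a b ≤ ∑ b, d a b :=
    Finset.single_le_sum (f := fun b => d a b) (fun _ _ => Nat.zero_le _) (Finset.mem_univ b)
  have h2 : ∑ b, d a b ≤ ∑ a, ∑ b, d a b :=
    Finset.single_le_sum (f := fun a => ∑ b, d a b) (fun _ _ => Nat.zero_le _)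
      (Finset.mem_univ a)
  omega

end main

section nil

variable {Λ : Type u} [Ring Λ] {X : Type}

/-- the ring homomorphism `Λ[t]⟨X⟩ → Λ⟨X⟩[t]` -/
noncomputable def swapHom (Λ : Type u) [Ring Λ] (X : Type) :
    MonoidAlgebra (Polynomial Λ) (FreeMonoid X) →+* Polynomial (MonoidAlgebra Λ (FreeMonoid X)) :=
  MonoidAlgebra.liftNCRingHom
    (Polynomial.mapRingHom (MonoidAlgebra.singleOneRingHom (R := Λ) (M := FreeMonoid X)))
    ((Polynomial.C : MonoidAlgebra Λ (FreeMonoid X) →+* _).toMonoidHom.comp
      (MonoidAlgebra.of Λ (FreeMonoid X))) (by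
    intro p w
    show _ * _ = _ * _
    apply Polynomial.ext
    intro m
    show (Polynomial.mapRingHom _ p * Polynomial.C (MonoidAlgebra.of Λ (FreeMonoid X) w)).coeff m
      = (Polynomial.C (MonoidAlgebra.of Λ (FreeMonoid X) w) * Polynomial.mapRingHom _ p).coeff m
    rw [Polynomial.coeff_mul_C, Polynomial.coeff_C_mul, Polynomial.coe_mapRingHom,
      Polynomial.coeff_map]
    show MonoidAlgebra.single 1 (p.coeff m) * MonoidAlgebra.single w 1
      = MonoidAlgebra.single w 1 * MonoidAlgebra.single 1 (p.coeff m)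
    rw [MonoidAlgebra.single_mul_single, MonoidAlgebra.single_mul_single, one_mul, mul_one,
      one_mul, mul_one])

lemma swapHom_map (f : MonoidAlgebra Λ (FreeMonoid X)) :
    swapHom Λ X (MonoidAlgebra.mapRingHom (FreeMonoid X) (Polynomial.C : Λ →+* Polynomial Λ) f)
      = Polynomial.C f := by
  have : (swapHom Λ X).comp (MonoidAlgebra.mapRingHom (FreeMonoid X)
      (Polynomial.C : Λ →+* Polynomial Λ)) = Polynomial.C := by
    apply MonoidAlgebra.ringHom_ext
    · intro r
      simp only [swapHom, RingHom.comp_apply, MonoidAlgebra.mapRingHom_single,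
        MonoidAlgebra.liftNCRingHom_single, map_one, mul_one]
      simp
    · intro w
      rw [RingHom.comp_apply, MonoidAlgebra.mapRingHom_single, swapHom,
        MonoidAlgebra.liftNCRingHom_single, map_one, map_one, one_mul]
      rfl
  exact congrArg (fun g : _ →+* _ => g f) this

lemma swapHom_t : swapHom Λ X (MonoidAlgebra.single 1 Polynomial.X) = Polynomial.X := by
  rw [swapHom, MonoidAlgebra.liftNCRingHom_single, map_one, mul_one]
  simp

theorem NilProp.monoidAlgebra [Fintype X] (hE : EProp (MonoidAlgebra (Polynomial Λ) (FreeMonoid X))) :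
    NilProp (MonoidAlgebra Λ (FreeMonoid X)) := by
  intro ι _ _ T hT
  let emb : MonoidAlgebra Λ (FreeMonoid X) →+* MonoidAlgebra (Polynomial Λ) (FreeMonoid X) :=
    MonoidAlgebra.mapRingHom (FreeMonoid X) (Polynomial.C : Λ →+* Polynomial Λ)
  let t : MonoidAlgebra (Polynomial Λ) (FreeMonoid X) := MonoidAlgebra.single 1 Polynomial.X
  have htc : ∀ f, Commute t f := by
    intro f
    apply MonoidAlgebra.single_commute
    · intro m; exact Commute.one_left m
    · intro r; exact Polynomial.X_mul
  let L : Matrix ι ι (MonoidAlgebra (Polynomial Λ) (FreeMonoid X)) :=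
    1 - T.map (fun a => t * emb a)
  have hL : IsUnit L := by
    apply hE
    intro κ _ _ R _ _ ev
    have h1 : ev.mapMatrix L
        = 1 - (Matrix.scalar ι (ev t)) * (ev.comp emb).mapMatrix T := by
      rw [map_sub, map_one]
      congr 1
      ext1 a b
      rw [Matrix.scalar_apply, Matrix.diagonal_mul]
      simp
    rw [h1]
    apply IsNilpotent.isUnit_one_sub
    apply Commute.isNilpotent_mul_left
    · show _ * _ = _ * _
      ext1 a b
      rw [Matrix.scalar_apply, Matrix.diagonal_mul, Matrix.mul_diagonal]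
      simp only [RingHom.mapMatrix_apply, Matrix.map_apply, RingHom.comp_apply]
      rw [← map_mul, ← map_mul, (htc (emb (T a b))).eq]
    · exact hT κ R (ev.comp emb)
  have h2 := hL.map ((swapHom Λ X).mapMatrix (m := ι))
  apply nilpotent_of_isUnit_poly T
  have h3 : (swapHom Λ X).mapMatrix L
      = 1 - T.map (fun a => (Polynomial.X : Polynomial (MonoidAlgebra Λ (FreeMonoid X)))
        * Polynomial.C a) := by
    rw [map_sub, map_one]
    congr 1
    ext1 a b
    simp only [RingHom.mapMatrix_apply, Matrix.map_apply]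
    rw [map_mul, swapHom_t, swapHom_map]
  rwa [h3] at h2

end nil

end Pool.Agent.H193R3
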