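import Pool.Agent.H193R3.Grade
import Pool.Agent.H193R3.Iso

set_option autoImplicit false

/-!
Translations and approximation at a moving base point.
-/

namespace Pool.Agent.H193R3

universe u

open scoped TensorProduct
open MulOpposite Polynomial

variable {K : Type u} [Field K] {n : ℕ}

/-- translation by the point `p` -/
noncomputable def tr (p : Fin n → K) : FA K n →ₐ[K] FA K n :=
  MonoidAlgebra.lift K (FA K n) (FreeMonoid (Fin n))
    (FreeMonoid.lift (fun j => gx j + p j • (1 : FA K n)))

lemma tr_gx (p : Fin n → K) (j : Fin n) : tr p (gx j) = gx j + p j • (1 : FA K n) := by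
  rw [tr, gx, MonoidAlgebra.lift_single, one_smul, FreeMonoid.lift_eval_of]
  rfl

lemma FA_hom_ext {B : Type u} [Ring B] [Algebra K B] {f g : FA K n →ₐ[K] B}
    (h : ∀ i, f (gx i) = g (gx i)) : f = g := by
  apply MonoidAlgebra.algHom_ext'
  · apply FreeMonoid.hom_eq
    intro i
    exact h i
  · ext

lemma tr_tr (p q : Fin n → K) (h : ∀ j, p j + q j = 0) (a : FA K n) : tr p (tr q a) = a := by
  have : (tr p).comp (tr q) = AlgHom.id K (FA K n) := by
    apply FA_hom_ext
    intro i
    rw [AlgHom.comp_apply, tr_gx, map_add, map_smul, map_one, tr_gx, add_assoc, ← add_smul, h,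
      zero_smul, add_zero]
    rfl
  exact congrArg (fun f : FA K n →ₐ[K] FA K n => f a) this

lemma dd_tr (p : Fin n → K) (j : Fin n) (a : FA K n) :
    dd j (tr p a) = til (tr p) (dd j a) := by
  induction a using FA_induction with
  | h0 => simp
  | hadd x y hx hy => rw [map_add, map_add, hx, hy, map_add, map_add]
  | hmon w c =>
    rw [map_smul, map_smul, map_smul, map_smul]
    congr 1
    induction w using FreeMonoid.inductionOn' with
    | one => rw [mon_one, map_one, dd_one, map_zero]
    | of_mul i w ih =>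
      rw [mon_mul, map_mul, dd_mul, dd_mul, map_add, map_mul, map_mul, til_ll, til_rr, ih, mon_of,
        tr_gx, map_add (dd j), map_smul (dd j), dd_one, smul_zero, add_zero, dd_gx]
      congr 2
      split_ifs <;> simp

/-- approximable by automorphisms, at points depending on the order of approximation -/
def Approx' (φ : FA K n →ₐ[K] FA K n) : Prop :=
  ∀ m, ∃ (p : Fin n → K) (α : FA K n ≃ₐ[K] FA K n), ∀ i, OrdGE m (tr p (φ (gx i) - α (gx i)))

lemma bd_sigL (a : FA K n) : ∃ d, ∀ p : Fin n → K, (sigL K n (tr p a)).natDegree ≤ d := by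
  induction a using FA_induction with
  | h0 => exact ⟨0, fun p => by simp⟩
  | hadd x y hx hy =>
    obtain ⟨d, hd⟩ := hx
    obtain ⟨e, he⟩ := hy
    refine ⟨max d e, fun p => ?_⟩
    rw [map_add, map_add]
    exact (natDegree_add_le _ _).trans (max_le_max (hd p) (he p))
  | hmon w c =>
    refine ⟨w.length, fun p => ?_⟩
    rw [map_smul, map_smul]
    refine (natDegree_smul_le _ _).trans ?_
    induction w using FreeMonoid.inductionOn' with
    | one => rw [mon_one, map_one, map_one, natDegree_one]; exact Nat.zero_le _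
    | of_mul i w ih =>
      rw [mon_mul, map_mul, map_mul, FreeMonoid.length_mul, FreeMonoid.length_of]
      refine natDegree_mul_le.trans (Nat.add_le_add ?_ ih)
      rw [mon_of, tr_gx, map_add, map_smul, map_one, ← mon_of, sigL_mon, FreeMonoid.length_of]
      refine (natDegree_add_le _ _).trans (max_le ?_ ?_)
      · exact natDegree_C_mul_X_pow_le _ _
      · refine (natDegree_smul_le _ _).trans ?_
        rw [natDegree_one]; exact Nat.zero_le _

lemma bd_sigR (a : FA K n) :
    ∃ d, ∀ p : Fin n → K, (unop (sigR K n (tr p a))).natDegree ≤ d := by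
  induction a using FA_induction with
  | h0 => exact ⟨0, fun p => by simp⟩
  | hadd x y hx hy =>
    obtain ⟨d, hd⟩ := hx
    obtain ⟨e, he⟩ := hy
    refine ⟨max d e, fun p => ?_⟩
    rw [map_add, map_add, unop_add]
    exact (natDegree_add_le _ _).trans (max_le_max (hd p) (he p))
  | hmon w c =>
    refine ⟨w.length, fun p => ?_⟩
    rw [map_smul, map_smul, unop_smul]
    refine (natDegree_smul_le _ _).trans ?_
    induction w using FreeMonoid.inductionOn' with
    | one => rw [mon_one, map_one, map_one, unop_one, natDegree_one]; exact Nat.zero_le _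
    | of_mul i w ih =>
      rw [mon_mul, map_mul, map_mul, unop_mul, FreeMonoid.length_mul, FreeMonoid.length_of,
        add_comm]
      refine natDegree_mul_le.trans (Nat.add_le_add ih ?_)
      rw [mon_of, tr_gx, map_add, map_smul, map_one, ← mon_of, sigR_mon, FreeMonoid.length_of,
        unop_add, unop_smul, unop_one, unop_op]
      refine (natDegree_add_le _ _).trans (max_le ?_ ?_)
      · exact natDegree_C_mul_X_pow_le _ _
      · refine (natDegree_smul_le _ _).trans ?_
        rw [natDegree_one]; exact Nat.zero_le _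

lemma bd_sig (x : AA K n) :
    ∃ d, ∀ p : Fin n → K, (sig K n (til (tr p) x)).natDegree ≤ d := by
  induction x using AA_induction with
  | h0 => exact ⟨0, fun p => by simp⟩
  | hadd x y hx hy =>
    obtain ⟨d, hd⟩ := hx
    obtain ⟨e, he⟩ := hy
    refine ⟨max d e, fun p => ?_⟩
    rw [map_add, map_add]
    exact (natDegree_add_le _ _).trans (max_le_max (hd p) (he p))
  | hpure a b =>
    obtain ⟨d, hd⟩ := bd_sigL a
    obtain ⟨e, he⟩ := bd_sigR b
    refine ⟨d + e, fun p => ?_⟩
    rw [map_mul, map_mul, til_ll, til_rr, sig_ll, sig_rr]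
    exact natDegree_mul_le.trans (Nat.add_le_add (hd p) (he p))

lemma til_til (p q : Fin n → K) (h : ∀ j, p j + q j = 0) (x : AA K n) :
    til (tr p) (til (tr q) x) = x := by
  induction x using AA_induction with
  | h0 => simp
  | hadd x y hx hy => rw [map_add, map_add, hx, hy]
  | hpure a b => rw [map_mul, map_mul, til_ll, til_rr, til_ll, til_rr, tr_tr p q h, tr_tr p q h]

theorem Jac_allUnits' (φ : FA K n →ₐ[K] FA K n) (hφ : Approx' φ) : AllUnits (Jac φ) := by
  intro κ _ _ R _ _ ev
  choose db hdb using fun a b => bd_sig (Jac φ a b)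
  let d : ℕ := ∑ a, ∑ b, db a b
  have hdle : ∀ a b, db a b ≤ d := by
    intro a b
    have h1 : db a b ≤ ∑ b, db a b :=
      Finset.single_le_sum (f := fun b => db a b) (fun _ _ => Nat.zero_le _) (Finset.mem_univ b)
    have h2 : ∑ b, db a b ≤ ∑ a, ∑ b, db a b :=
      Finset.single_le_sum (f := fun a => ∑ b, db a b) (fun _ _ => Nat.zero_le _)
        (Finset.mem_univ a)
    exact h1.trans h2
  set m := Fintype.card (Fin n) * Fintype.card κ * d + 1 with hm
  obtain ⟨p, α, hα⟩ := hφ (m + 1)
  obtain ⟨N, hN⟩ := Jac_left_inv α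
  let q : Fin n → K := fun j => -p j
  have hpq : ∀ j, q j + p j = 0 := fun j => by simp [q]
  have h0 : ((ev.comp (til (tr q)).toRingHom).mapMatrix
      ((til (tr p)).toRingHom.mapMatrix (Jac φ))) = ev.mapMatrix (Jac φ) := by
    refine Matrix.ext fun a b => ?_
    show ev (til (tr q) (til (tr p) (Jac φ a b))) = ev (Jac φ a b)
    rw [til_til q p hpq]
  rw [← h0]
  apply closure_unit (sig K n).toRingHom sig_eval (ev.comp (til (tr q)).toRingHom)
    ((til (tr p)).toRingHom.mapMatrix (Jac φ))
    ((til (tr p)).toRingHom.mapMatrix (Jac (α : FA K n →ₐ[K] FA K n)))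
    ((til (tr p)).toRingHom.mapMatrix N) d m
  · intro a b k hk
    apply coeff_eq_zero_of_natDegree_lt
    exact lt_of_le_of_lt ((hdb a b p).trans (hdle a b)) hk
  · omega
  · right
    rw [← map_mul, hN, map_one]
  · intro a b k hk
    have h1 : (til (tr p)).toRingHom.mapMatrix (Jac φ) a b
        - (til (tr p)).toRingHom.mapMatrix (Jac (α : FA K n →ₐ[K] FA K n)) a b
        = dd b (tr p (φ (gx a) - α (gx a))) := by
      rw [dd_tr, map_sub, map_sub]
      rfl
    rw [h1]
    exact sig_dd b _ (m + 1) (hα a) k (by omega)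

end Pool.Agent.H193R3
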